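import Mathlib

set_option autoImplicit false

/-!
# A polynomial upper bound for R(2,d) over F_2 (Kelley-Meka sifting): definitions

`G` is a finite vector space over the field with two elements.
-/

open Finset Module

namespace Pool.Agent.Helper22.KM

variable {G : Type} [AddCommGroup G] [DecidableEq G]

/-- number of `y ∈ B` with `y + x ∈ B` -/
def rep (B : Finset G) (x : G) : ℕ := (B.filter (fun y => y + x ∈ B)).card

/-- proportion of the `a ∈ A` with `a + x ∈ S` -/
noncomputable def gg (A S : Finset G) (x : G) : ℝ :=
  ((A.filter (fun a => a + x ∈ S)).card : ℝ) / A.card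

/-- proportion of the pairs `(a, a')` of elements of `A` with `a + a' + x ∈ S` -/
noncomputable def hh (A S : Finset G) (x : G) : ℝ :=
  (∑ a ∈ A, gg A S (a + x)) / A.card

/-- the sign character of the field with two elements -/
def sg (t : ZMod 2) : ℝ := if t = 0 then 1 else -1

theorem gg_nonneg (A S : Finset G) (x : G) : 0 ≤ gg A S x := by
  unfold gg; positivity

theorem gg_le_one (A S : Finset G) (x : G) : gg A S x ≤ 1 := by
  unfold gg
  apply div_le_one_of_le₀ _ (by positivity)
  exact_mod_cast Finset.card_filter_le _ _

theorem hh_nonneg (A S : Finset G) (x : G) : 0 ≤ hh A S x := by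
  unfold hh
  apply div_nonneg _ (by positivity)
  exact Finset.sum_nonneg (fun a _ => gg_nonneg A S _)

theorem hh_le_one (A S : Finset G) (x : G) : hh A S x ≤ 1 := by
  unfold hh
  apply div_le_one_of_le₀ _ (by positivity)
  calc ∑ a ∈ A, gg A S (a + x) ≤ ∑ a ∈ A, (1 : ℝ) :=
        Finset.sum_le_sum (fun a _ => gg_le_one A S _)
    _ = A.card := by simp

/-- addition in characteristic two -/
theorem add_self (G : Type) [AddCommGroup G] [Module (ZMod 2) G] (x : G) : x + x = 0 := by
  have := two_smul (ZMod 2) x
  rw [show (2 : ZMod 2) = 0 from rfl, zero_smul] at this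
  exact this.symm

end Pool.Agent.Helper22.KM
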