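import Pool.Agent.Helper22.KM.Defs

set_option autoImplicit false

/-! KM-1: moments of an autocorrelation are non-negative.
Proof: `∑_{x,y} h(x+y)^p = |G| ∑_x h(x)^p` where `h(x+y) = ∑_z φ(z+x) φ(z+y)`, and expanding the
power the double sum is `∑_{z : Fin p → G} (∑_x ∏_i φ(z_i + x))^2`. -/

open Finset Module

namespace Pool.Agent.Helper22.KM

theorem sum_corr_pow_nonneg {G : Type} [AddCommGroup G] [Module (ZMod 2) G] [Fintype G]
    (φ : G → ℝ) (p : ℕ) : 0 ≤ ∑ x, (∑ z, φ z * φ (z + x)) ^ p := by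
  classical
  have h1 : ∀ x y : G, (∑ z, φ z * φ (z + (x + y))) = ∑ z, φ (z + x) * φ (z + y) := by
    intro x y
    rw [← Equiv.sum_comp (Equiv.addRight x)]
    apply Finset.sum_congr rfl
    intro z _
    simp only [Equiv.coe_addRight]
    congr 2
    have h := add_self G x
    calc z + x + (x + y) = z + (x + x) + y := by abel
      _ = z + y := by rw [h, add_zero]
  have h2 : ∑ x : G, ∑ y : G, (∑ z, φ z * φ (z + (x + y))) ^ p =
      (Fintype.card G : ℝ) * ∑ x, (∑ z, φ z * φ (z + x)) ^ p := by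
    have h3 : ∀ x : G, ∑ y : G, (∑ z, φ z * φ (z + (x + y))) ^ p =
        ∑ y, (∑ z, φ z * φ (z + y)) ^ p := by
      intro x
      exact Equiv.sum_comp (Equiv.addLeft x) (fun w => (∑ z, φ z * φ (z + w)) ^ p)
    rw [Finset.sum_congr rfl (fun x _ => h3 x), Finset.sum_const, Finset.card_univ, nsmul_eq_mul]
  have h4 : 0 ≤ ∑ x : G, ∑ y : G, (∑ z, φ z * φ (z + (x + y))) ^ p := by
    have h5 : ∑ x : G, ∑ y : G, (∑ z, φ z * φ (z + (x + y))) ^ p =
        ∑ t : Fin p → G, (∑ x, ∏ i, φ (t i + x)) ^ 2 := by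
      have h6 : ∀ x y : G, (∑ z, φ z * φ (z + (x + y))) ^ p =
          ∑ t : Fin p → G, (∏ i, φ (t i + x)) * (∏ i, φ (t i + y)) := by
        intro x y
        rw [h1, Fintype.sum_pow]
        apply Finset.sum_congr rfl
        intro t _
        rw [Finset.prod_mul_distrib]
      simp only [h6]
      rw [Finset.sum_congr rfl (fun x _ => Finset.sum_comm), Finset.sum_comm]
      apply Finset.sum_congr rfl
      intro t _
      rw [sq, Finset.sum_mul_sum]
    rw [h5]
    exact Finset.sum_nonneg (fun t _ => sq_nonneg _)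
  rw [h2] at h4
  have h7 : (0 : ℝ) < Fintype.card G := by
    have : 0 < Fintype.card G := Fintype.card_pos
    exact_mod_cast this
  exact nonneg_of_mul_nonneg_right h4 h7

end Pool.Agent.Helper22.KM
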