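import Pool.Agent.Helper22.KM.Defs

set_option autoImplicit false

/-! KM-3: sifting.
Proof: for `s : Fin q → G` put `A(s) = {y | ∀ i, y + s i ∈ B}`.  For every `x`,
`∑_s #{y ∈ A(s) | y + x ∈ A(s)} = ∑_y ∏_i #{s_i | y+s_i ∈ B, y+x+s_i ∈ B} = N (rep B x)^q`.
Hence `∑_s |A(s)|^2 = N ∑_x rep^q ≥ N^2 (5/4 b^2/N)^q`, and the number of (s, pair in A(s)) with
`y + z ∉ S` is `N ∑_{x ∉ S} rep^q ≤ N^2 (9/8 b^2/N)^q ≤ (1/64) N^2 (5/4 b^2/N)^q`.  So for some `s`
`|A(s)|^2 - 32 bad(s) ≥ (1/2) N^2 (5/4)^q (b^2/N)^q / N^q ≥ (N^2/2) (b/N)^(2q)`. -/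

open Finset Module

namespace Pool.Agent.Helper22.KM

section
variable {G : Type} [AddCommGroup G] [Module (ZMod 2) G] [Fintype G] [DecidableEq G]

/-- the sifted set -/
private def AA (B : Finset G) {q : ℕ} (s : Fin q → G) : Finset G :=
  Finset.univ.filter (fun y => ∀ i, y + s i ∈ B)

/-- the number of `y` in the sifted set with `y + x` in the sifted set -/
private def cc (B : Finset G) {q : ℕ} (s : Fin q → G) (x : G) : ℕ :=
  ((AA B s).filter (fun y => y + x ∈ AA B s)).card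

omit [Module (ZMod 2) G] in
private lemma card_u (B : Finset G) (x y : G) :
    (Finset.univ.filter (fun u => y + u ∈ B ∧ y + x + u ∈ B)).card = rep B x := by
  unfold rep
  refine Finset.card_bij (fun u _ => y + u) ?_ ?_ ?_
  · intro u hu
    simp only [Finset.mem_filter, Finset.mem_univ, true_and] at hu ⊢
    refine ⟨hu.1, ?_⟩
    have : y + u + x = y + x + u := by abel
    rw [this]; exact hu.2
  · intro u _ v _ h
    exact add_left_cancel h
  · intro z hz
    simp only [Finset.mem_filter] at hz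
    refine ⟨z - y, ?_, by abel⟩
    simp only [Finset.mem_filter, Finset.mem_univ, true_and]
    refine ⟨by simpa using hz.1, ?_⟩
    have : y + x + (z - y) = z + x := by abel
    rw [this]; exact hz.2

omit [Module (ZMod 2) G] in
private lemma card_s (B : Finset G) (q : ℕ) (x y : G) :
    (Finset.univ.filter (fun s : Fin q → G => ∀ i, y + s i ∈ B ∧ y + x + s i ∈ B)).card =
      rep B x ^ q := by
  have h : (Finset.univ.filter (fun s : Fin q → G => ∀ i, y + s i ∈ B ∧ y + x + s i ∈ B)) =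
      Fintype.piFinset (fun _ : Fin q =>
        Finset.univ.filter (fun u => y + u ∈ B ∧ y + x + u ∈ B)) := by
    ext s
    simp only [Finset.mem_filter, Finset.mem_univ, true_and, Fintype.mem_piFinset]
  rw [h, Fintype.card_piFinset, Finset.prod_const, card_u, Finset.card_univ, Fintype.card_fin]

omit [Module (ZMod 2) G] in
private lemma sum_cc (B : Finset G) (q : ℕ) (x : G) :
    ∑ s : Fin q → G, cc B s x = Fintype.card G * rep B x ^ q := by
  have h : ∀ s : Fin q → G, cc B s x =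
      ∑ y : G, if (∀ i, y + s i ∈ B ∧ y + x + s i ∈ B) then 1 else 0 := by
    intro s
    rw [← Finset.card_filter]
    unfold cc AA
    congr 1
    ext y
    simp only [Finset.mem_filter, Finset.mem_univ, true_and]
    exact ⟨fun hh i => ⟨hh.1 i, hh.2 i⟩, fun hh => ⟨fun i => (hh i).1, fun i => (hh i).2⟩⟩
  rw [Finset.sum_congr rfl (fun s _ => h s), Finset.sum_comm]
  have h2 : ∀ y : G, (∑ s : Fin q → G, if (∀ i, y + s i ∈ B ∧ y + x + s i ∈ B) then 1 else 0) =
      rep B x ^ q := by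
    intro y
    rw [← Finset.card_filter, card_s]
  rw [Finset.sum_congr rfl (fun y _ => h2 y), Finset.sum_const, Finset.card_univ, smul_eq_mul]

omit [Module (ZMod 2) G] in
private lemma sum_cc_univ (B : Finset G) {q : ℕ} (s : Fin q → G) :
    ∑ x, cc B s x = (AA B s).card ^ 2 := by
  have h : ∀ x, cc B s x = ∑ y ∈ AA B s, if y + x ∈ AA B s then 1 else 0 := by
    intro x
    rw [← Finset.card_filter]
    rfl
  rw [Finset.sum_congr rfl (fun x _ => h x), Finset.sum_comm]
  have h2 : ∀ y ∈ AA B s, (∑ x : G, if y + x ∈ AA B s then 1 else 0) = (AA B s).card := by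
    intro y _
    rw [← Finset.card_filter]
    refine Finset.card_bij (fun x _ => y + x) ?_ ?_ ?_
    · intro x hx
      exact (Finset.mem_filter.1 hx).2
    · intro x _ z _ hxz
      exact add_left_cancel hxz
    · intro z hz
      refine ⟨z - y, ?_, by abel⟩
      simp only [Finset.mem_filter, Finset.mem_univ, true_and]
      have : y + (z - y) = z := by abel
      rw [this]; exact hz
  rw [Finset.sum_congr rfl h2, Finset.sum_const, smul_eq_mul, sq]

private lemma hh_cc (B : Finset G) {q : ℕ} (s : Fin q → G) (S : Finset G)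
    (hA : (AA B s).Nonempty) :
    hh (AA B s) S 0 = ((∑ x ∈ S, cc B s x : ℕ) : ℝ) / ((AA B s).card : ℝ) ^ 2 := by
  have h : ∀ x, cc B s x = ∑ y ∈ AA B s, if y + x ∈ AA B s then 1 else 0 := by
    intro x
    rw [← Finset.card_filter]
    rfl
  have h1 : (∑ x ∈ S, cc B s x) = ∑ a ∈ AA B s, ((AA B s).filter (fun b => b + a ∈ S)).card := by
    rw [Finset.sum_congr rfl (fun x _ => h x), Finset.sum_comm]
    refine Finset.sum_congr rfl ?_
    intro a _
    rw [← Finset.card_filter]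
    refine Finset.card_bij (fun x _ => a + x) ?_ ?_ ?_
    · intro x hx
      rw [Finset.mem_filter] at hx ⊢
      refine ⟨hx.2, ?_⟩
      have : a + x + a = x := by
        rw [add_comm a x, add_assoc, add_self G a, add_zero]
      rw [this]; exact hx.1
    · intro x _ z _ hxz
      exact add_left_cancel hxz
    · intro z hz
      rw [Finset.mem_filter] at hz
      refine ⟨z + a, ?_, ?_⟩
      · rw [Finset.mem_filter]
        refine ⟨hz.2, ?_⟩
        have : a + (z + a) = z := by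
          rw [add_comm z a, ← add_assoc, add_self G a, zero_add]
        rw [this]; exact hz.1
      · show a + (z + a) = z
        rw [add_comm z a, ← add_assoc, add_self G a, zero_add]
  have hc : (0 : ℝ) < (AA B s).card := by exact_mod_cast hA.card_pos
  rw [h1]
  unfold hh gg
  rw [← Finset.sum_div, div_div, ← sq]
  push_cast
  congr 1
  refine Finset.sum_congr rfl ?_
  intro a _
  rw [add_zero]

end

theorem sift {G : Type} [AddCommGroup G] [Module (ZMod 2) G] [Fintype G] [DecidableEq G]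
    (B : Finset G) (hB : B.Nonempty) (q : ℕ) (hq : (9 / 10 : ℝ) ^ q ≤ 1 / 64)
    (hmom : ((5 / 4 : ℝ) * ((B.card : ℝ) ^ 2 / Fintype.card G)) ^ q * Fintype.card G ≤
      ∑ x, (rep B x : ℝ) ^ q) :
    ∃ A : Finset G, A.Nonempty ∧
      ((B.card : ℝ) / Fintype.card G) ^ q * Fintype.card G / 2 ≤ A.card ∧
      31 / 32 ≤ hh A (Finset.univ.filter
        (fun x => (9 / 8 : ℝ) * ((B.card : ℝ) ^ 2 / Fintype.card G) < rep B x)) 0 := by
  classical
  set N : ℝ := (Fintype.card G : ℝ) with hN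
  set b : ℝ := (B.card : ℝ) with hb
  have hNpos : 0 < N := by
    rw [hN]; exact_mod_cast Fintype.card_pos
  have hbpos : 0 < b := by
    rw [hb]; exact_mod_cast hB.card_pos
  set S := Finset.univ.filter (fun x => (9 / 8 : ℝ) * (b ^ 2 / N) < rep B x) with hS
  set M : ℝ := ((5 / 4 : ℝ) * (b ^ 2 / N)) ^ q with hM
  have hMpos : 0 < M := by rw [hM]; positivity
  -- total
  have htot : N ^ 2 * M ≤ ∑ s : Fin q → G, (((AA B s).card : ℝ)) ^ 2 := by
    have h1 : ∑ s : Fin q → G, ((AA B s).card) ^ 2 = ∑ x, Fintype.card G * rep B x ^ q := by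
      rw [Finset.sum_congr rfl (fun s _ => (sum_cc_univ B s).symm), Finset.sum_comm]
      exact Finset.sum_congr rfl (fun x _ => sum_cc B q x)
    have h2 : ∑ s : Fin q → G, (((AA B s).card : ℝ)) ^ 2 = N * ∑ x, (rep B x : ℝ) ^ q := by
      have := congrArg (fun n : ℕ => (n : ℝ)) h1
      push_cast at this
      rw [this, Finset.mul_sum]
    rw [h2]
    have h3 : N * (M * N) ≤ N * ∑ x, (rep B x : ℝ) ^ q := mul_le_mul_of_nonneg_left hmom hNpos.le
    calc N ^ 2 * M = N * (M * N) := by ring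
      _ ≤ _ := h3
  have hbad : ∑ s : Fin q → G, ((∑ x ∈ Sᶜ, cc B s x : ℕ) : ℝ) ≤ N ^ 2 * M / 64 := by
    have h1 : ∑ s : Fin q → G, (∑ x ∈ Sᶜ, cc B s x) = ∑ x ∈ Sᶜ, Fintype.card G * rep B x ^ q := by
      rw [Finset.sum_comm]
      exact Finset.sum_congr rfl (fun x _ => sum_cc B q x)
    have h2 : ∑ s : Fin q → G, ((∑ x ∈ Sᶜ, cc B s x : ℕ) : ℝ) =
        N * ∑ x ∈ Sᶜ, (rep B x : ℝ) ^ q := by
      have := congrArg (fun n : ℕ => (n : ℝ)) h1
      push_cast at this ⊢
      rw [this, Finset.mul_sum]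
    rw [h2]
    have h3 : ∑ x ∈ Sᶜ, (rep B x : ℝ) ^ q ≤ N * (M / 64) := by
      have h4 : ∀ x ∈ Sᶜ, (rep B x : ℝ) ^ q ≤ M / 64 := by
        intro x hx
        rw [Finset.mem_compl, hS, Finset.mem_filter, not_and, not_lt] at hx
        have h5 := hx (Finset.mem_univ _)
        have h6 : (rep B x : ℝ) ^ q ≤ ((9 / 8 : ℝ) * (b ^ 2 / N)) ^ q :=
          pow_le_pow_left₀ (by positivity) h5 q
        have h7 : ((9 / 8 : ℝ) * (b ^ 2 / N)) ^ q = (9 / 10 : ℝ) ^ q * M := by
          rw [hM, ← mul_pow]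
          congr 1
          ring
        rw [h7] at h6
        have h8 : (9 / 10 : ℝ) ^ q * M ≤ 1 / 64 * M := mul_le_mul_of_nonneg_right hq hMpos.le
        linarith
      refine (Finset.sum_le_sum h4).trans ?_
      rw [Finset.sum_const, nsmul_eq_mul]
      refine mul_le_mul_of_nonneg_right ?_ (by positivity)
      rw [hN]
      exact_mod_cast Finset.card_le_univ _
    calc N * ∑ x ∈ Sᶜ, (rep B x : ℝ) ^ q ≤ N * (N * (M / 64)) :=
          mul_le_mul_of_nonneg_left h3 hNpos.le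
      _ = N ^ 2 * M / 64 := by ring
  -- average
  have hsum : ∑ _s : Fin q → G, (N ^ 2 / 2 * ((b / N) ^ q) ^ 2) ≤
      ∑ s : Fin q → G, ((((AA B s).card : ℝ)) ^ 2 - 32 * ((∑ x ∈ Sᶜ, cc B s x : ℕ) : ℝ)) := by
    have e1 : ∑ s : Fin q → G, ((((AA B s).card : ℝ)) ^ 2 -
        32 * ((∑ x ∈ Sᶜ, cc B s x : ℕ) : ℝ)) = ∑ s : Fin q → G, (((AA B s).card : ℝ)) ^ 2 -
        32 * ∑ s : Fin q → G, ((∑ x ∈ Sᶜ, cc B s x : ℕ) : ℝ) := by
      rw [Finset.sum_sub_distrib, ← Finset.mul_sum]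
    have e2 : ∑ _s : Fin q → G, (N ^ 2 / 2 * ((b / N) ^ q) ^ 2) =
        N ^ q * (N ^ 2 / 2 * ((b / N) ^ q) ^ 2) := by
      rw [Finset.sum_const, Finset.card_univ, Fintype.card_fun, Fintype.card_fin, nsmul_eq_mul]
      push_cast
      rw [← hN]
    rw [e1, e2]
    have h1 : N ^ q * (N ^ 2 / 2 * ((b / N) ^ q) ^ 2) ≤ N ^ 2 * M / 2 := by
      have h2 : N ^ q * ((b / N) ^ q) ^ 2 = (b ^ 2 / N) ^ q := by
        rw [← pow_mul, mul_comm q 2, pow_mul, ← mul_pow]
        congr 1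
        field_simp
      have h3 : (b ^ 2 / N) ^ q ≤ M := by
        rw [hM]
        refine pow_le_pow_left₀ (by positivity) ?_ q
        have : 0 ≤ b ^ 2 / N := by positivity
        linarith
      calc N ^ q * (N ^ 2 / 2 * ((b / N) ^ q) ^ 2) = N ^ 2 / 2 * (N ^ q * ((b / N) ^ q) ^ 2) := by
            ring
        _ = N ^ 2 / 2 * (b ^ 2 / N) ^ q := by rw [h2]
        _ ≤ N ^ 2 / 2 * M := mul_le_mul_of_nonneg_left h3 (by positivity)
        _ = N ^ 2 * M / 2 := by ring
    linarith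
  obtain ⟨s, -, hs⟩ := Finset.exists_le_of_sum_le (Finset.univ_nonempty) hsum
  have hpos : 0 < N ^ 2 / 2 * ((b / N) ^ q) ^ 2 := by positivity
  have hbadnn : (0 : ℝ) ≤ ((∑ x ∈ Sᶜ, cc B s x : ℕ) : ℝ) := Nat.cast_nonneg _
  have hAsq : N ^ 2 / 2 * ((b / N) ^ q) ^ 2 ≤ ((AA B s).card : ℝ) ^ 2 := by linarith
  have hAne : (AA B s).Nonempty := by
    rw [Finset.nonempty_iff_ne_empty]
    intro h0
    rw [h0, Finset.card_empty] at hAsq
    norm_num at hAsq
    linarith
  have hcpos : (0 : ℝ) < (AA B s).card := by exact_mod_cast hAne.card_pos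
  refine ⟨AA B s, hAne, ?_, ?_⟩
  · refine le_of_sq_le_sq ?_ hcpos.le
    refine le_trans ?_ hAsq
    have h9 : 0 ≤ N ^ 2 * ((b / N) ^ q) ^ 2 := by positivity
    calc ((b / N) ^ q * N / 2) ^ 2 = N ^ 2 * ((b / N) ^ q) ^ 2 / 4 := by ring
      _ ≤ N ^ 2 / 2 * ((b / N) ^ q) ^ 2 := by linarith
  · rw [hh_cc B s S hAne, le_div_iff₀ (by positivity)]
    have h10 : (∑ x ∈ S, cc B s x) + ∑ x ∈ Sᶜ, cc B s x = (AA B s).card ^ 2 := by
      rw [Finset.sum_add_sum_compl, sum_cc_univ]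
    have h11 : ((∑ x ∈ S, cc B s x : ℕ) : ℝ) + ((∑ x ∈ Sᶜ, cc B s x : ℕ) : ℝ) =
        ((AA B s).card : ℝ) ^ 2 := by
      exact_mod_cast h10
    linarith

end Pool.Agent.Helper22.KM
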