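import Pool.Agent.Helper22.KM.Defs

set_option autoImplicit false

/-! KM-6: iterating the almost periods.
Proof: induction on `m`; one step `|hh A S w - hh A S (w + (t + t'))| ≤ 2 ε + 2 η N / |A|`:
average over `a ∈ A` of `|gg A S (y + t) - gg A S (y + t')|` with `y = a + w + t`
(characteristic two), at most `2 η N` of the `a` are exceptional and then the difference is at
most one. -/

open Finset Module

namespace Pool.Agent.Helper22.KM

private theorem one_step {G : Type} [AddCommGroup G] [Module (ZMod 2) G] [Fintype G]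
    [DecidableEq G]
    (A S : Finset G) (hA : A.Nonempty) (ε η : ℝ) (hε : 0 ≤ ε) (t t' : G)
    (hper : ((Finset.univ.filter (fun y => 2 * ε < |gg A S (y + t) - gg A S (y + t')|)).card : ℝ) ≤
          2 * η * Fintype.card G) (w : G) :
    |hh A S w - hh A S (w + (t + t'))| ≤ 2 * ε + 2 * η * Fintype.card G / A.card := by
  classical
  have hA0 : (0 : ℝ) < A.card := by exact_mod_cast hA.card_pos
  set bad : Finset G := Finset.univ.filter (fun y => 2 * ε < |gg A S (y + t) - gg A S (y + t')|)
    with hbad
  have hterm : ∀ a ∈ A, |gg A S (a + w) - gg A S (a + (w + (t + t')))| ≤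
      2 * ε + (if a + w + t ∈ bad then 1 else 0) := by
    intro a _
    have e1 : a + w = (a + w + t) + t := by
      rw [add_assoc (a + w) t t, add_self G t, add_zero]
    have e2 : a + (w + (t + t')) = (a + w + t) + t' := by
      simp only [add_assoc]
    rw [e2]
    nth_rewrite 1 [e1]
    by_cases hb : a + w + t ∈ bad
    · rw [if_pos hb]
      have h1 := gg_nonneg A S (a + w + t + t)
      have h2 := gg_le_one A S (a + w + t + t)
      have h3 := gg_nonneg A S (a + w + t + t')
      have h4 := gg_le_one A S (a + w + t + t')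
      rw [abs_le]
      constructor <;> linarith
    · rw [if_neg hb, add_zero]
      by_contra hlt
      apply hb
      rw [hbad, Finset.mem_filter]
      exact ⟨Finset.mem_univ _, not_le.1 hlt⟩
  have hcard : (∑ a ∈ A, (if a + w + t ∈ bad then (1 : ℝ) else 0)) ≤ bad.card := by
    rw [← Finset.sum_filter, Finset.sum_const, nsmul_eq_mul, mul_one]
    norm_cast
    refine Finset.card_le_card_of_injOn (fun a => a + w + t) ?_ ?_
    · intro a ha
      have := (Finset.mem_filter.1 (Finset.mem_coe.1 ha)).2
      exact this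
    · intro a _ b _ hab
      simpa using hab
  have hsum : |hh A S w - hh A S (w + (t + t'))| ≤
      (∑ a ∈ A, |gg A S (a + w) - gg A S (a + (w + (t + t')))|) / A.card := by
    unfold hh
    rw [← sub_div, abs_div, abs_of_pos hA0, ← Finset.sum_sub_distrib]
    exact div_le_div_of_nonneg_right (Finset.abs_sum_le_sum_abs _ _) hA0.le
  refine le_trans hsum ?_
  rw [div_le_iff₀ hA0]
  calc (∑ a ∈ A, |gg A S (a + w) - gg A S (a + (w + (t + t')))|)
      ≤ ∑ a ∈ A, (2 * ε + (if a + w + t ∈ bad then (1 : ℝ) else 0)) :=
        Finset.sum_le_sum hterm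
    _ = A.card * (2 * ε) + ∑ a ∈ A, (if a + w + t ∈ bad then (1 : ℝ) else 0) := by
        rw [Finset.sum_add_distrib, Finset.sum_const, nsmul_eq_mul]
    _ ≤ A.card * (2 * ε) + 2 * η * Fintype.card G := by
        linarith
    _ = (2 * ε + 2 * η * Fintype.card G / A.card) * A.card := by
        field_simp

theorem iterate {G : Type} [AddCommGroup G] [Module (ZMod 2) G] [Fintype G] [DecidableEq G]
    (A S T : Finset G) (hA : A.Nonempty) (ε η : ℝ) (hε : 0 ≤ ε)
    (hper : ∀ t ∈ T, ∀ t' ∈ T,
        ((Finset.univ.filter (fun y => 2 * ε < |gg A S (y + t) - gg A S (y + t')|)).card : ℝ) ≤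
          2 * η * Fintype.card G)
    (m : ℕ) (v : G) (t t' : Fin m → G) (ht : ∀ i, t i ∈ T) (ht' : ∀ i, t' i ∈ T) :
    |hh A S v - hh A S (v + ∑ i, (t i + t' i))| ≤
      m * (2 * ε + 2 * η * Fintype.card G / A.card) := by
  induction m with
  | zero => simp
  | succ m ih =>
    have h1 := ih (fun i => t i.castSucc) (fun i => t' i.castSucc) (fun i => ht _)
      (fun i => ht' _)
    have h2 := one_step A S hA ε η hε (t (Fin.last m)) (t' (Fin.last m))
      (hper _ (ht _) _ (ht' _)) (v + ∑ i : Fin m, (t i.castSucc + t' i.castSucc))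
    rw [Fin.sum_univ_castSucc, ← add_assoc]
    push_cast
    calc |hh A S v - hh A S (v + ∑ i : Fin m, (t i.castSucc + t' i.castSucc)
          + (t (Fin.last m) + t' (Fin.last m)))|
        ≤ |hh A S v - hh A S (v + ∑ i : Fin m, (t i.castSucc + t' i.castSucc))| +
          |hh A S (v + ∑ i : Fin m, (t i.castSucc + t' i.castSucc)) -
            hh A S (v + ∑ i : Fin m, (t i.castSucc + t' i.castSucc)
            + (t (Fin.last m) + t' (Fin.last m)))| := abs_sub_le _ _ _
      _ ≤ m * (2 * ε + 2 * η * Fintype.card G / A.card) +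
          (2 * ε + 2 * η * Fintype.card G / A.card) := add_le_add h1 h2
      _ = (m + 1) * (2 * ε + 2 * η * Fintype.card G / A.card) := by ring

end Pool.Agent.Helper22.KM
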