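import Pool.Agent.Helper22.KM.Defs

set_option autoImplicit false

/-! KM-7: Chang's theorem over F_2.
Proof: `e i = ± 1` the sign of `∑_{x ∈ T} sg (ξ i x)`, `Z x = ∑ i, e i * sg (ξ i x)`.  The map
`x ↦ (ξ i x)_i` is onto `Fin M → ZMod 2` with fibres of size `N / 2^M`, so
`∑_x exp(ρ Z x) = N (cosh ρ)^M ≤ N exp(M ρ^2 / 2)`, while
`∑_{x ∈ T} exp(ρ Z x) ≥ |T| exp(ρ^2 M)` (use `exp y ≥ exp c (1 + y - c)`, `c = ρ^2 M`, and
`∑_{x ∈ T} Z x ≥ ρ M |T|`). -/

open Finset Module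

namespace Pool.Agent.Helper22.KM

private theorem sg_add (a b : ZMod 2) : sg (a + b) = sg a * sg b := by
  have key : ∀ a b : ZMod 2, (a = 0 ∧ b = 0 ∧ a + b = 0) ∨ (a = 0 ∧ b ≠ 0 ∧ a + b ≠ 0) ∨
      (a ≠ 0 ∧ b = 0 ∧ a + b ≠ 0) ∨ (a ≠ 0 ∧ b ≠ 0 ∧ a + b = 0) := by decide
  unfold sg
  rcases key a b with ⟨h1, h2, h3⟩ | ⟨h1, h2, h3⟩ | ⟨h1, h2, h3⟩ | ⟨h1, h2, h3⟩
  · rw [if_pos h1, if_pos h2, if_pos h3]; norm_num
  · rw [if_pos h1, if_neg h2, if_neg h3]; norm_num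
  · rw [if_neg h1, if_pos h2, if_neg h3]; norm_num
  · rw [if_neg h1, if_neg h2, if_pos h3]; norm_num

private theorem sum_sg_eq_zero {G : Type} [AddCommGroup G] [Module (ZMod 2) G] [Fintype G]
    (ζ : Module.Dual (ZMod 2) G) (hζ : ζ ≠ 0) : ∑ x, sg (ζ x) = 0 := by
  obtain ⟨x₀, hx₀⟩ : ∃ x₀, ζ x₀ ≠ 0 := by
    by_contra h
    push Not at h
    exact hζ (LinearMap.ext h)
  have h1 : sg (ζ x₀) = -1 := by rw [sg, if_neg hx₀]
  have h2 : ∑ x, sg (ζ (x + x₀)) = ∑ x, sg (ζ x) :=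
    Fintype.sum_equiv (Equiv.addRight x₀) _ _ fun x => rfl
  have h3 : ∑ x, sg (ζ (x + x₀)) = -∑ x, sg (ζ x) := by
    rw [← Finset.sum_neg_distrib]
    refine Finset.sum_congr rfl fun x _ => ?_
    rw [map_add, sg_add, h1]
    ring
  linarith

private theorem sg_zero : sg 0 = 1 := by simp [sg]

private theorem sg_sum {ι : Type*} (s : Finset ι) (f : ι → ZMod 2) :
    sg (∑ i ∈ s, f i) = ∏ i ∈ s, sg (f i) := by
  classical
  induction s using Finset.induction_on with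
  | empty => simp [sg_zero]
  | insert a s ha ih => rw [Finset.sum_insert ha, Finset.prod_insert ha, sg_add, ih]

private theorem sg_cases (a : ZMod 2) : sg a = 1 ∨ sg a = -1 := by
  unfold sg
  split_ifs
  · exact Or.inl rfl
  · exact Or.inr rfl

/-- the exponential moment of a signed sum of independent characters -/
private theorem sum_exp_char {G : Type} [AddCommGroup G] [Module (ZMod 2) G] [Fintype G] (M : ℕ)
    (ξ : Fin M → Module.Dual (ZMod 2) G) (hξ : LinearIndependent (ZMod 2) ξ) (e : Fin M → ℝ)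
    (he : ∀ i, e i = 1 ∨ e i = -1) (ρ : ℝ) :
    ∑ x, Real.exp (ρ * ∑ i, e i * sg (ξ i x)) = Fintype.card G * Real.cosh ρ ^ M := by
  classical
  have h1 : ∀ x, Real.exp (ρ * ∑ i, e i * sg (ξ i x)) =
      ∏ i, (e i * sg (ξ i x) * Real.sinh ρ + Real.cosh ρ) := by
    intro x
    rw [Finset.mul_sum, Real.exp_sum]
    refine Finset.prod_congr rfl fun i _ => ?_
    have h2 : e i * sg (ξ i x) = 1 ∨ e i * sg (ξ i x) = -1 := by
      rcases he i with h | h <;> rcases sg_cases (ξ i x) with h' | h' <;> rw [h, h'] <;> norm_num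
    rcases h2 with h | h
    · rw [h, mul_one, one_mul, add_comm, Real.cosh_add_sinh]
    · rw [h, mul_neg, mul_one, neg_one_mul, neg_add_eq_sub, Real.cosh_sub_sinh]
  rw [Finset.sum_congr rfl fun x _ => h1 x]
  simp only [Finset.prod_add]
  rw [Finset.sum_comm]
  rw [Finset.sum_eq_single (∅ : Finset (Fin M))]
  · simp [Finset.card_univ]
  · intro t _ ht
    have h2 : ∑ i ∈ t, ξ i ≠ 0 := by
      intro h0
      obtain ⟨i, hi⟩ := Finset.nonempty_iff_ne_empty.2 ht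
      have h3 := Fintype.linearIndependent_iff.1 hξ (fun i => if i ∈ t then 1 else 0) (by
        simp only [ite_smul, one_smul, zero_smul]
        rw [← Finset.sum_filter]
        convert h0 using 2
        ext i; simp) i
      rw [if_pos hi] at h3
      exact one_ne_zero h3
    have h3 := sum_sg_eq_zero _ h2
    have h4 : ∀ x, (∏ i ∈ t, e i * sg (ξ i x) * Real.sinh ρ) * ∏ _i ∈ Finset.univ \ t, Real.cosh ρ =
        (∏ i ∈ t, (e i * Real.sinh ρ)) * (∏ _i ∈ Finset.univ \ t, Real.cosh ρ) *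
          sg ((∑ i ∈ t, ξ i) x) := by
      intro x
      rw [LinearMap.sum_apply, sg_sum]
      have h5 : ∏ i ∈ t, e i * sg (ξ i x) * Real.sinh ρ =
          (∏ i ∈ t, (e i * Real.sinh ρ)) * ∏ i ∈ t, sg (ξ i x) := by
        rw [← Finset.prod_mul_distrib]
        refine Finset.prod_congr rfl fun i _ => ?_
        ring
      rw [h5]
      ring
    rw [Finset.sum_congr rfl fun x _ => h4 x, ← Finset.mul_sum, h3, mul_zero]
  · intro h
    exact absurd (Finset.mem_powerset.2 (Finset.empty_subset _)) h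

theorem chang {G : Type} [AddCommGroup G] [Module (ZMod 2) G] [Fintype G] [DecidableEq G]
    (T : Finset G) (hT : T.Nonempty) (ρ : ℝ) (hρ : 0 < ρ) (M : ℕ)
    (ξ : Fin M → Module.Dual (ZMod 2) G) (hξ : LinearIndependent (ZMod 2) ξ)
    (hbig : ∀ i, ρ * T.card ≤ |∑ x ∈ T, sg (ξ i x)|) :
    M * ρ ^ 2 / 2 ≤ Real.log (Fintype.card G / T.card) := by
  classical
  obtain ⟨e, he⟩ : ∃ e : Fin M → ℝ, e = fun i =>
    if 0 ≤ ∑ x ∈ T, sg (ξ i x) then 1 else -1 := ⟨_, rfl⟩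
  have he1 : ∀ i, e i = 1 ∨ e i = -1 := by
    intro i
    rw [he]
    by_cases h : 0 ≤ ∑ x ∈ T, sg (ξ i x)
    · left; simp only [if_pos h]
    · right; simp only [if_neg h]
  have he2 : ∀ i, ρ * T.card ≤ e i * ∑ x ∈ T, sg (ξ i x) := by
    intro i
    refine (hbig i).trans (le_of_eq ?_)
    rw [he]
    by_cases h : 0 ≤ ∑ x ∈ T, sg (ξ i x)
    · simp only [if_pos h]
      rw [abs_of_nonneg h, one_mul]
    · simp only [if_neg h]
      rw [abs_of_neg (not_le.1 h), neg_one_mul]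
  have hT0 : (0 : ℝ) < T.card := by exact_mod_cast hT.card_pos
  have hN0 : (0 : ℝ) < Fintype.card G := by
    have : Nonempty G := ⟨hT.choose⟩
    exact_mod_cast Fintype.card_pos
  -- upper bound
  have h1 : ∑ x ∈ T, Real.exp (ρ * ∑ i, e i * sg (ξ i x)) ≤
      Fintype.card G * Real.exp (M * (ρ ^ 2 / 2)) := by
    calc ∑ x ∈ T, Real.exp (ρ * ∑ i, e i * sg (ξ i x))
        ≤ ∑ x, Real.exp (ρ * ∑ i, e i * sg (ξ i x)) :=
          Finset.sum_le_sum_of_subset_of_nonneg (Finset.subset_univ _)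
            fun _ _ _ => (Real.exp_pos _).le
      _ = Fintype.card G * Real.cosh ρ ^ M := sum_exp_char M ξ hξ e he1 ρ
      _ ≤ Fintype.card G * Real.exp (M * (ρ ^ 2 / 2)) := by
          rw [Real.exp_nat_mul]
          exact mul_le_mul_of_nonneg_left (pow_le_pow_left₀ (Real.cosh_pos _).le
            (Real.cosh_le_exp_half_sq ρ) M) hN0.le
  -- lower bound
  have h2 : T.card * Real.exp (M * ρ ^ 2) ≤ ∑ x ∈ T, Real.exp (ρ * ∑ i, e i * sg (ξ i x)) := by
    have h3 : ∀ x, Real.exp (M * ρ ^ 2) * (1 - M * ρ ^ 2 + ρ * ∑ i, e i * sg (ξ i x)) ≤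
        Real.exp (ρ * ∑ i, e i * sg (ξ i x)) := by
      intro x
      have h4 := Real.add_one_le_exp (ρ * ∑ i, e i * sg (ξ i x) - M * ρ ^ 2)
      have h5 : Real.exp (ρ * ∑ i, e i * sg (ξ i x)) = Real.exp (M * ρ ^ 2) *
          Real.exp (ρ * ∑ i, e i * sg (ξ i x) - M * ρ ^ 2) := by
        rw [← Real.exp_add]
        congr 1
        ring
      rw [h5]
      apply mul_le_mul_of_nonneg_left _ (Real.exp_pos _).le
      linarith
    refine le_trans ?_ (Finset.sum_le_sum fun x _ => h3 x)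
    rw [← Finset.mul_sum, Finset.sum_add_distrib, Finset.sum_const, nsmul_eq_mul,
      ← Finset.mul_sum, Finset.sum_comm]
    have h4 : (M : ℝ) * (ρ * T.card) ≤ ∑ i, ∑ x ∈ T, e i * sg (ξ i x) := by
      calc (M : ℝ) * (ρ * T.card) = ∑ _i : Fin M, ρ * (T.card : ℝ) := by simp
        _ ≤ ∑ i, ∑ x ∈ T, e i * sg (ξ i x) := by
            refine Finset.sum_le_sum fun i _ => ?_
            rw [← Finset.mul_sum]
            exact he2 i
    have h5 : (T.card : ℝ) ≤ T.card * (1 - M * ρ ^ 2) +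
        ρ * ∑ i, ∑ x ∈ T, e i * sg (ξ i x) := by
      have h6 := mul_le_mul_of_nonneg_left h4 hρ.le
      nlinarith
    calc (T.card : ℝ) * Real.exp (M * ρ ^ 2) = Real.exp (M * ρ ^ 2) * T.card := mul_comm _ _
      _ ≤ _ := mul_le_mul_of_nonneg_left h5 (Real.exp_pos _).le
  have h3 := h2.trans h1
  rw [Real.le_log_iff_exp_le (by positivity), le_div_iff₀ hT0]
  have h4 : Real.exp (M * ρ ^ 2) = Real.exp (M * ρ ^ 2 / 2) * Real.exp (M * ρ ^ 2 / 2) := by
    rw [← Real.exp_add]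
    congr 1
    ring
  have h5 : Real.exp (M * (ρ ^ 2 / 2)) = Real.exp (M * ρ ^ 2 / 2) := by
    congr 1
    ring
  rw [h4, h5] at h3
  have h6 : (Real.exp (M * ρ ^ 2 / 2) * T.card) * Real.exp (M * ρ ^ 2 / 2) ≤
      Fintype.card G * Real.exp (M * ρ ^ 2 / 2) := by
    linarith
  exact le_of_mul_le_mul_right h6 (Real.exp_pos _)

end Pool.Agent.Helper22.KM
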