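import Pool.Agent.Helper22.KM.Defs

set_option autoImplicit false

/-! KM-8: Fourier analysis: the averaged function is nearly invariant under the annihilator of the
large spectrum.
Proof: Fourier inversion on `G` (`∑_{ξ : Dual} sg (ξ x) = N` if `x = 0` and `0` otherwise) gives
`hh A S x = (1 / (N |A|^2)) ∑_ξ A^(ξ)^2 S^(ξ) sg(ξ x)` with `A^(ξ) = ∑_{a ∈ A} sg(ξ a)`; the sum
over `t, t'` multiplies the term of `ξ` by `T^(ξ)^(2m)`.  The terms with
`|T^(ξ)| ≥ ρ |T|` cancel since `ξ v = 0`; for the others `|T^(ξ)|^(2m) ≤ (ρ |T|)^(2m)`,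
`|S^| ≤ N` and `∑_ξ A^(ξ)^2 = N |A|`. -/

open Finset Module

namespace Pool.Agent.Helper22.KM

private theorem k8_sg_add (a b : ZMod 2) : sg (a + b) = sg a * sg b := by
  have h : ∀ a : ZMod 2, a = 0 ∨ a = 1 := by decide
  have h11 : (1 : ZMod 2) + 1 = 0 := by decide
  have h10 : (1 : ZMod 2) ≠ 0 := by decide
  rcases h a with rfl | rfl <;> rcases h b with rfl | rfl <;> simp [sg, h11]

private theorem k8_sg_zero : sg 0 = 1 := by simp [sg]

private theorem k8_sg_abs (a : ZMod 2) : |sg a| = 1 := by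
  unfold sg
  split_ifs <;> simp

private theorem k8_sg_sum {ι : Type*} (s : Finset ι) (f : ι → ZMod 2) :
    sg (∑ i ∈ s, f i) = ∏ i ∈ s, sg (f i) := by
  classical
  induction s using Finset.induction_on with
  | empty => simp [k8_sg_zero]
  | insert i s hi ih => rw [Finset.sum_insert hi, Finset.prod_insert hi, k8_sg_add, ih]

section

variable {G : Type} [AddCommGroup G] [Module (ZMod 2) G] [Fintype G] [DecidableEq G]

private instance k8_finite : Finite (Module.Dual (ZMod 2) G) :=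
  Finite.of_injective (fun f => (f : G → ZMod 2)) DFunLike.coe_injective

private noncomputable instance k8_fintype : Fintype (Module.Dual (ZMod 2) G) := Fintype.ofFinite _

private theorem k8_card : Fintype.card (Module.Dual (ZMod 2) G) = Fintype.card G := by
  haveI : Module.Finite (ZMod 2) G := inferInstance
  let b := Module.finBasis (ZMod 2) G
  exact (Fintype.card_congr b.toDualEquiv.toEquiv).symm

private theorem k8_orth (x : G) :
    ∑ ξ : Module.Dual (ZMod 2) G, sg (ξ x) = if x = 0 then (Fintype.card G : ℝ) else 0 := by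
  split_ifs with hx
  · subst hx
    simp [k8_sg_zero, k8_card]
  · obtain ⟨ξ₀, hξ₀⟩ : ∃ ξ₀ : Module.Dual (ZMod 2) G, ξ₀ x ≠ 0 := by
      by_contra hcon
      push Not at hcon
      exact hx ((Module.forall_dual_apply_eq_zero_iff (ZMod 2) x).1 hcon)
    have h1 : ∑ ξ : Module.Dual (ZMod 2) G, sg (ξ x)
        = ∑ ξ : Module.Dual (ZMod 2) G, sg ((ξ + ξ₀) x) :=
      (Equiv.sum_comp (Equiv.addRight ξ₀) (fun ξ : Module.Dual (ZMod 2) G => sg (ξ x))).symm
    have h2 : ∑ ξ : Module.Dual (ZMod 2) G, sg ((ξ + ξ₀) x)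
        = - ∑ ξ : Module.Dual (ZMod 2) G, sg (ξ x) := by
      rw [← Finset.sum_neg_distrib]
      refine Finset.sum_congr rfl fun ξ _ => ?_
      rw [LinearMap.add_apply, k8_sg_add]
      have : sg (ξ₀ x) = -1 := by simp [sg, hξ₀]
      rw [this]; ring
    linarith

/-- Fourier transform of a set -/
private noncomputable def k8_hat (A : Finset G) (ξ : Module.Dual (ZMod 2) G) : ℝ :=
  ∑ a ∈ A, sg (ξ a)

private theorem k8_hat_le (A : Finset G) (ξ : Module.Dual (ZMod 2) G) :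
    |k8_hat A ξ| ≤ A.card := by
  unfold k8_hat
  refine (Finset.abs_sum_le_sum_abs _ _).trans ?_
  simp [k8_sg_abs]

private theorem k8_inv (S : Finset G) (y : G) :
    ∑ ξ : Module.Dual (ZMod 2) G, k8_hat S ξ * sg (ξ y)
      = (Fintype.card G : ℝ) * if y ∈ S then 1 else 0 := by
  unfold k8_hat
  simp_rw [Finset.sum_mul]
  rw [Finset.sum_comm]
  have h1 : ∀ s ∈ S, ∑ ξ : Module.Dual (ZMod 2) G, sg (ξ s) * sg (ξ y)
      = if y = s then (Fintype.card G : ℝ) else 0 := by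
    intro s _
    have h2 : ∑ ξ : Module.Dual (ZMod 2) G, sg (ξ s) * sg (ξ y)
        = ∑ ξ : Module.Dual (ZMod 2) G, sg (ξ (s + y)) := by
      refine Finset.sum_congr rfl fun ξ _ => ?_
      rw [map_add, k8_sg_add]
    rw [h2, k8_orth]
    have h3 : s + y = 0 ↔ y = s := by
      constructor
      · intro h
        have h4 : s + (s + y) = s + 0 := by rw [h]
        rw [← add_assoc, add_self, zero_add, add_zero] at h4
        exact h4
      · rintro rfl
        exact add_self G y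
    simp only [h3]
  rw [Finset.sum_congr rfl h1, Finset.sum_ite_eq]
  split_ifs <;> simp

private theorem k8_parseval (A : Finset G) :
    ∑ ξ : Module.Dual (ZMod 2) G, k8_hat A ξ ^ 2 = (Fintype.card G : ℝ) * A.card := by
  have h1 : ∀ ξ : Module.Dual (ZMod 2) G, k8_hat A ξ ^ 2 = ∑ a ∈ A, k8_hat A ξ * sg (ξ a) := by
    intro ξ
    rw [← Finset.mul_sum, sq]
    rfl
  rw [Finset.sum_congr rfl fun ξ _ => h1 ξ, Finset.sum_comm,
    Finset.sum_congr rfl fun a _ => k8_inv A a]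
  rw [Finset.sum_congr rfl (g := fun _ => (Fintype.card G : ℝ)) (fun a ha => by simp [ha])]
  rw [Finset.sum_const, nsmul_eq_mul, mul_comm]

private theorem k8_hh (A S : Finset G) (hA : A.Nonempty) (x : G) :
    (Fintype.card G : ℝ) * (A.card : ℝ) ^ 2 * hh A S x
      = ∑ ξ : Module.Dual (ZMod 2) G, k8_hat S ξ * k8_hat A ξ ^ 2 * sg (ξ x) := by
  have hc : (A.card : ℝ) ≠ 0 := by exact_mod_cast hA.card_pos.ne'
  have hg : ∀ y : G, (A.card : ℝ) * gg A S y = ∑ a ∈ A, if a + y ∈ S then (1 : ℝ) else 0 := by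
    intro y
    unfold gg
    rw [mul_div_cancel₀ _ hc, Finset.card_filter]
    push_cast
    rfl
  have hh1 : (A.card : ℝ) ^ 2 * hh A S x
      = ∑ a ∈ A, ∑ a' ∈ A, if a' + (a + x) ∈ S then (1 : ℝ) else 0 := by
    unfold hh
    rw [sq, mul_assoc, mul_div_cancel₀ _ hc, Finset.mul_sum]
    exact Finset.sum_congr rfl fun a _ => hg _
  rw [mul_assoc, hh1, Finset.mul_sum]
  have h2 : ∀ ξ : Module.Dual (ZMod 2) G, k8_hat S ξ * k8_hat A ξ ^ 2 * sg (ξ x)
      = ∑ a ∈ A, ∑ a' ∈ A, k8_hat S ξ * sg (ξ (a' + (a + x))) := by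
    intro ξ
    have h3 : ∀ a a' : G, k8_hat S ξ * sg (ξ (a' + (a + x)))
        = k8_hat S ξ * sg (ξ x) * sg (ξ a) * sg (ξ a') := by
      intro a a'
      rw [map_add, map_add, k8_sg_add, k8_sg_add]; ring
    simp_rw [h3]
    simp_rw [← Finset.mul_sum]
    rw [← Finset.sum_mul, ← Finset.mul_sum]
    show _ = k8_hat S ξ * sg (ξ x) * k8_hat A ξ * k8_hat A ξ
    ring
  rw [Finset.sum_congr rfl fun ξ _ => h2 ξ, Finset.sum_comm]
  refine Finset.sum_congr rfl fun a _ => ?_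
  rw [Finset.sum_comm, Finset.mul_sum]
  exact Finset.sum_congr rfl fun a' _ => (k8_inv S _).symm

private theorem k8_pow (T : Finset G) (m : ℕ) (ξ : Module.Dual (ZMod 2) G) :
    ∑ t ∈ Fintype.piFinset (fun _ : Fin m => T), sg (ξ (∑ i, t i)) = k8_hat T ξ ^ m := by
  have h1 : k8_hat T ξ ^ m = ∏ _i : Fin m, ∑ x ∈ T, sg (ξ x) := by
    simp [k8_hat]
  rw [h1, Finset.prod_univ_sum]
  refine Finset.sum_congr rfl fun t _ => ?_
  rw [map_sum, k8_sg_sum]

end

theorem near_invariant {G : Type} [AddCommGroup G] [Module (ZMod 2) G] [Fintype G]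
    [DecidableEq G] (A S T : Finset G) (hA : A.Nonempty) (hT : T.Nonempty) (ρ : ℝ) (hρ : 0 ≤ ρ)
    (m : ℕ) (v : G)
    (hv : ∀ ξ : Module.Dual (ZMod 2) G, ρ * T.card ≤ |∑ x ∈ T, sg (ξ x)| → ξ v = 0) :
    |∑ t ∈ Fintype.piFinset (fun _ : Fin m => T), ∑ t' ∈ Fintype.piFinset (fun _ : Fin m => T),
      (hh A S (v + ∑ i, (t i + t' i)) - hh A S (∑ i, (t i + t' i)))| ≤
      2 * ((Fintype.card G : ℝ) / A.card) * ρ ^ (2 * m) * (T.card : ℝ) ^ (2 * m) := by
  have hc : (0 : ℝ) < A.card := by exact_mod_cast hA.card_pos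
  have hN : (0 : ℝ) < Fintype.card G := by
    have : Nonempty G := ⟨0⟩
    exact_mod_cast Fintype.card_pos
  set N : ℝ := (Fintype.card G : ℝ) with hNdef
  set P := Fintype.piFinset (fun _ : Fin m => T) with hP
  set D₀ : ℝ := ∑ t ∈ P, ∑ t' ∈ P,
      (hh A S (v + ∑ i, (t i + t' i)) - hh A S (∑ i, (t i + t' i))) with hS0
  have hdiff : ∀ x : G, N * (A.card : ℝ) ^ 2 * (hh A S (v + x) - hh A S x)
      = ∑ ξ : Module.Dual (ZMod 2) G, k8_hat S ξ * k8_hat A ξ ^ 2 * (sg (ξ v) - 1) * sg (ξ x) := by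
    intro x
    rw [mul_sub, k8_hh A S hA, k8_hh A S hA, ← Finset.sum_sub_distrib]
    refine Finset.sum_congr rfl fun ξ _ => ?_
    rw [map_add, k8_sg_add]; ring
  have key : N * (A.card : ℝ) ^ 2 * D₀
      = ∑ ξ : Module.Dual (ZMod 2) G,
        k8_hat S ξ * k8_hat A ξ ^ 2 * (sg (ξ v) - 1) * k8_hat T ξ ^ (2 * m) := by
    rw [hS0, Finset.mul_sum]
    have h1 : ∀ t ∈ P, N * (A.card : ℝ) ^ 2 * ∑ t' ∈ P,
        (hh A S (v + ∑ i, (t i + t' i)) - hh A S (∑ i, (t i + t' i)))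
        = ∑ ξ : Module.Dual (ZMod 2) G, k8_hat S ξ * k8_hat A ξ ^ 2 * (sg (ξ v) - 1)
          * (sg (ξ (∑ i, t i)) * k8_hat T ξ ^ m) := by
      intro t _
      rw [Finset.mul_sum]
      have h2 : ∀ t' ∈ P, N * (A.card : ℝ) ^ 2 *
          (hh A S (v + ∑ i, (t i + t' i)) - hh A S (∑ i, (t i + t' i)))
          = ∑ ξ : Module.Dual (ZMod 2) G, k8_hat S ξ * k8_hat A ξ ^ 2 * (sg (ξ v) - 1)
            * sg (ξ (∑ i, (t i + t' i))) := fun t' _ => hdiff _
      rw [Finset.sum_congr rfl h2, Finset.sum_comm]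
      refine Finset.sum_congr rfl fun ξ _ => ?_
      rw [← Finset.mul_sum]
      congr 1
      rw [← k8_pow, Finset.mul_sum]
      refine Finset.sum_congr rfl fun t' _ => ?_
      rw [Finset.sum_add_distrib, map_add, k8_sg_add]
    rw [Finset.sum_congr rfl h1, Finset.sum_comm]
    refine Finset.sum_congr rfl fun ξ _ => ?_
    rw [← Finset.mul_sum, ← Finset.sum_mul, k8_pow, two_mul, pow_add]
  have hT0 : (0 : ℝ) ≤ T.card := by positivity
  have hbound : |N * (A.card : ℝ) ^ 2 * D₀|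
      ≤ ∑ ξ : Module.Dual (ZMod 2) G, N * k8_hat A ξ ^ 2 * 2 * (ρ * T.card) ^ (2 * m) := by
    rw [key]
    refine (Finset.abs_sum_le_sum_abs _ _).trans (Finset.sum_le_sum fun ξ _ => ?_)
    by_cases hξ : ρ * T.card ≤ |∑ x ∈ T, sg (ξ x)|
    · rw [hv ξ hξ, k8_sg_zero, sub_self, mul_zero, zero_mul, abs_zero]
      positivity
    · push Not at hξ
      rw [abs_mul, abs_mul, abs_mul, abs_pow (k8_hat T ξ), abs_of_nonneg (sq_nonneg (k8_hat A ξ))]
      have h1 : |k8_hat S ξ| ≤ N := (k8_hat_le S ξ).trans (by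
        rw [hNdef]; exact_mod_cast Finset.card_le_univ S)
      have h2 : |sg (ξ v) - 1| ≤ 2 := by
        unfold sg
        split_ifs <;> norm_num
      have h3 : |k8_hat T ξ| ^ (2 * m) ≤ (ρ * T.card) ^ (2 * m) :=
        pow_le_pow_left₀ (abs_nonneg _) hξ.le _
      gcongr
  rw [← Finset.sum_mul, ← Finset.sum_mul, ← Finset.mul_sum, k8_parseval, ← hNdef] at hbound
  rw [abs_mul, abs_of_pos (by positivity : 0 < N * (A.card : ℝ) ^ 2), mul_pow] at hbound
  have h4 : |D₀| ≤ (N * (N * A.card) * 2 * (ρ ^ (2 * m) * (T.card : ℝ) ^ (2 * m)))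
      / (N * (A.card : ℝ) ^ 2) := by
    rw [le_div_iff₀ (by positivity)]
    linarith
  refine h4.trans (le_of_eq ?_)
  field_simp

end Pool.Agent.Helper22.KM
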