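import Pool.Agent.Helper22.KM.K5
import Pool.Agent.Helper22.KM.K6
import Pool.Agent.Helper22.KM.K7
import Pool.Agent.Helper22.KM.K8

set_option autoImplicit false

/-! KM-9: the Schoen-Sisask type statement.
Proof: `ρ = 1/2`, `m = L + 4`, `ε = 1/(400 m)`, `η = 2^(-L)/(400 m)`, `k = 224000000 L^3`
(so that `ε^2 k / 4 ≥ 14 L ≥ log (1600 m 2^L) = log (4/η)`, using `m ≤ 5 L`).  `V` is the common
kernel of the `ξ` with `|T^(ξ)| ≥ |T|/2`; its codimension is the dimension of their span, at most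
`8 log(N/|T|) ≤ 8 (L k + 1) ≤ 16 L k` by KM-7.  The error is
`2 m (2 ε + 2 η 2^L) + 2 * 2^L * 2^(-2m) ≤ 1/50 + 1/256 ≤ 1/32`. -/

open Finset Module

namespace Pool.Agent.Helper22.KM

private theorem aux_exp (L : ℕ) (hL : 1 ≤ L) :
    (1600 * ((L : ℝ) + 4) * 2 ^ L) ≤ Real.exp (14 * L) := by
  have h1 : (1600 * ((L : ℝ) + 4) * 2 ^ L) ≤ 16384 ^ L := by
    induction L, hL using Nat.le_induction with
    | base => norm_num
    | succ L hL ih =>
      have h2 : (1 : ℝ) ≤ L := by exact_mod_cast hL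
      have h3 : (0 : ℝ) < 2 ^ L := by positivity
      push_cast
      rw [pow_succ, pow_succ]
      have h4 : 1600 * ((L : ℝ) + 1 + 4) * (2 ^ L * 2) ≤ 4 * (1600 * ((L : ℝ) + 4) * 2 ^ L) := by
        nlinarith
      have h5 : (0 : ℝ) < 16384 ^ L := by positivity
      linarith
  have h2 : (16384 : ℝ) ≤ Real.exp 14 := by
    have h3 : Real.exp 14 = Real.exp 1 ^ 14 := by
      rw [← Real.exp_nat_mul]
      norm_num
    rw [h3]
    have h4 : (2 : ℝ) ≤ Real.exp 1 := by
      have := Real.exp_one_gt_d9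
      linarith
    calc (16384 : ℝ) = 2 ^ 14 := by norm_num
      _ ≤ Real.exp 1 ^ 14 := pow_le_pow_left₀ (by norm_num) h4 14
  calc (1600 * ((L : ℝ) + 4) * 2 ^ L) ≤ 16384 ^ L := h1
    _ ≤ Real.exp 14 ^ L := pow_le_pow_left₀ (by norm_num) h2 L
    _ = Real.exp (14 * L) := by
        rw [← Real.exp_nat_mul]
        congr 1
        ring

private theorem aux_eta (L : ℕ) (hL : 1 ≤ L) :
    4 * Real.exp (-((1 / (400 * ((L : ℝ) + 4))) ^ 2 * ((224000000 * L ^ 3 : ℕ) : ℝ) / 4)) ≤
      1 / (400 * ((L : ℝ) + 4) * 2 ^ L) := by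
  have h1 : (1 : ℝ) ≤ L := by exact_mod_cast hL
  have h2 : 14 * (L : ℝ) ≤
      (1 / (400 * ((L : ℝ) + 4))) ^ 2 * ((224000000 * L ^ 3 : ℕ) : ℝ) / 4 := by
    push_cast
    have h3 : (1 / (400 * ((L : ℝ) + 4))) ^ 2 * (224000000 * (L : ℝ) ^ 3) / 4 =
        350 * (L : ℝ) ^ 3 / ((L : ℝ) + 4) ^ 2 := by
      field_simp
      ring
    rw [h3, le_div_iff₀ (by positivity)]
    have h4 : ((L : ℝ) + 4) ^ 2 ≤ 25 * (L : ℝ) ^ 2 := by nlinarith
    have h5 : 0 ≤ 14 * (L : ℝ) := by positivity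
    nlinarith [mul_le_mul_of_nonneg_left h4 h5]
  have h3 := aux_exp L hL
  have h4 : Real.exp (-((1 / (400 * ((L : ℝ) + 4))) ^ 2 * ((224000000 * L ^ 3 : ℕ) : ℝ) / 4)) ≤
      Real.exp (-(14 * L)) := Real.exp_le_exp.2 (by linarith)
  have h5 : Real.exp (-(14 * (L : ℝ))) ≤ 1 / (1600 * ((L : ℝ) + 4) * 2 ^ L) := by
    rw [Real.exp_neg, ← one_div]
    exact one_div_le_one_div_of_le (by positivity) h3
  calc 4 * Real.exp (-((1 / (400 * ((L : ℝ) + 4))) ^ 2 * ((224000000 * L ^ 3 : ℕ) : ℝ) / 4))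
      ≤ 4 * (1 / (1600 * ((L : ℝ) + 4) * 2 ^ L)) := by linarith
    _ = 1 / (400 * ((L : ℝ) + 4) * 2 ^ L) := by
        field_simp
        norm_num

theorem almost_invariant {G : Type} [AddCommGroup G] [Module (ZMod 2) G] [Fintype G]
    [DecidableEq G] (A S : Finset G) (hA : A.Nonempty) (L : ℕ) (hL : 1 ≤ L)
    (hd : (Fintype.card G : ℝ) ≤ 2 ^ L * A.card) :
    ∃ V : Submodule (ZMod 2) G,
      finrank (ZMod 2) G ≤ finrank (ZMod 2) V + 4000000000 * L ^ 4 ∧
      ∀ v ∈ V, |hh A S v - hh A S 0| ≤ 1 / 32 := by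
  have hL1 : (1 : ℝ) ≤ L := by exact_mod_cast hL
  have ha0 : (0 : ℝ) < A.card := by exact_mod_cast hA.card_pos
  have hN0 : (0 : ℝ) < Fintype.card G := by
    have : Nonempty G := ⟨hA.choose⟩
    exact_mod_cast Fintype.card_pos
  have hNa : (Fintype.card G : ℝ) / A.card ≤ 2 ^ L := by
    rw [div_le_iff₀ ha0]
    exact hd
  have hLk : 1 ≤ 224000000 * L ^ 3 := by
    have : 1 ≤ L ^ 3 := Nat.one_le_pow _ _ hL
    omega
  obtain ⟨T, hT, hTc, hper⟩ := periods A S hA (224000000 * L ^ 3) hLk (1 / (400 * ((L : ℝ) + 4)))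
    (1 / (400 * ((L : ℝ) + 4) * 2 ^ L)) (by positivity) (by
      rw [div_le_one (by positivity)]
      linarith) (aux_eta L hL)
  have ht0 : (0 : ℝ) < T.card := by exact_mod_cast hT.card_pos
  obtain ⟨W, hW⟩ : ∃ W : Submodule (ZMod 2) (Module.Dual (ZMod 2) G),
      W = Submodule.span (ZMod 2) {ξ | (1 / 2 : ℝ) * T.card ≤ |∑ x ∈ T, sg (ξ x)|} := ⟨_, rfl⟩
  refine ⟨W.dualCoannihilator, ?_, ?_⟩
  · have h1 := Subspace.finrank_add_finrank_dualCoannihilator_eq W
    have h2 : finrank (ZMod 2) W ≤ 4000000000 * L ^ 4 := by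
      obtain ⟨M, hM, f, hf1, hf3⟩ : ∃ M : ℕ, finrank (ZMod 2) W = M ∧
          ∃ f : Fin M → Module.Dual (ZMod 2) G,
            (∀ i, (1 / 2 : ℝ) * T.card ≤ |∑ x ∈ T, sg (f i x)|) ∧
            LinearIndependent (ZMod 2) f := by
        obtain ⟨f, hf1, -, hf3⟩ := Submodule.exists_fun_fin_finrank_span_eq (ZMod 2)
          {ξ : Module.Dual (ZMod 2) G | (1 / 2 : ℝ) * T.card ≤ |∑ x ∈ T, sg (ξ x)|}
        exact ⟨_, by rw [hW], f, hf1, hf3⟩
      rw [hM]
      have h3 := chang T hT (1 / 2) (by norm_num) _ f hf3 hf1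
      have h4 : (Fintype.card G : ℝ) / T.card ≤ 2 ^ (L * (224000000 * L ^ 3) + 1) := by
        rw [div_le_iff₀ ht0]
        have h5 : (1 : ℝ) ≤ 2 ^ (L * (224000000 * L ^ 3)) *
            ((A.card : ℝ) / Fintype.card G) ^ (224000000 * L ^ 3) := by
          rw [pow_mul, ← mul_pow]
          apply one_le_pow₀
          rw [mul_div_assoc', le_div_iff₀ hN0, one_mul]
          exact hd
        have h6 : (Fintype.card G : ℝ) ≤ 2 ^ (L * (224000000 * L ^ 3) + 1) *
            (((A.card : ℝ) / Fintype.card G) ^ (224000000 * L ^ 3) / 2 * Fintype.card G) := by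
          have h7 : (2 : ℝ) ^ (L * (224000000 * L ^ 3) + 1) *
            (((A.card : ℝ) / Fintype.card G) ^ (224000000 * L ^ 3) / 2 * Fintype.card G) =
            (2 ^ (L * (224000000 * L ^ 3)) *
            ((A.card : ℝ) / Fintype.card G) ^ (224000000 * L ^ 3)) * Fintype.card G := by
            rw [pow_succ]
            ring
          rw [h7]
          exact le_mul_of_one_le_left hN0.le h5
        exact h6.trans (mul_le_mul_of_nonneg_left hTc (by positivity))
      have h5 : Real.log ((Fintype.card G : ℝ) / T.card) ≤ L * (224000000 * L ^ 3) + 1 := by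
        refine (Real.log_le_log (by positivity) h4).trans ?_
        rw [Real.log_pow]
        push_cast
        have h6 : Real.log 2 ≤ 1 := by
          have := Real.log_two_lt_d9
          linarith
        have h7 : (0 : ℝ) ≤ L * (224000000 * L ^ 3) + 1 := by positivity
        calc ((L : ℝ) * (224000000 * L ^ 3) + 1) * Real.log 2
            ≤ ((L : ℝ) * (224000000 * L ^ 3) + 1) * 1 := mul_le_mul_of_nonneg_left h6 h7
          _ = _ := mul_one _
      have h6 : (M : ℝ) ≤ 8 * (L * (224000000 * L ^ 3) + 1) := by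
        have h7 := h3.trans h5
        linarith
      have h7 : (M : ℝ) ≤ 4000000000 * (L : ℝ) ^ 4 := by
        have h8 : (1 : ℝ) ≤ (L : ℝ) ^ 4 := one_le_pow₀ hL1
        have h9 : (L : ℝ) * (224000000 * L ^ 3) = 224000000 * (L : ℝ) ^ 4 := by ring
        rw [h9] at h6
        linarith
      exact_mod_cast h7
    omega
  · intro v hv
    have hv' : ∀ ξ : Module.Dual (ZMod 2) G,
        (1 / 2 : ℝ) * T.card ≤ |∑ x ∈ T, sg (ξ x)| → ξ v = 0 := by
      intro ξ hξ
      rw [Submodule.mem_dualCoannihilator] at hv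
      apply hv
      rw [hW]
      exact Submodule.subset_span hξ
    have hit : ∀ (w : G) (t t' : Fin (L + 4) → G), (∀ i, t i ∈ T) → (∀ i, t' i ∈ T) →
        |hh A S w - hh A S (w + ∑ i, (t i + t' i))| ≤ 1 / 100 := by
      intro w t t' ht ht'
      refine (iterate A S T hA _ _ (by positivity) hper (L + 4) w t t' ht ht').trans ?_
      push_cast
      have h1 : ((L : ℝ) + 4) * (2 * (1 / (400 * ((L : ℝ) + 4))) +
          2 * (1 / (400 * ((L : ℝ) + 4) * 2 ^ L)) * Fintype.card G / A.card) =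
          1 / 200 + (1 / 200) * (((Fintype.card G : ℝ) / A.card) / 2 ^ L) := by
        field_simp
        ring
      rw [h1]
      have h2 : ((Fintype.card G : ℝ) / A.card) / 2 ^ L ≤ 1 := by
        rw [div_le_one (by positivity)]
        exact hNa
      linarith
    have hni := near_invariant A S T hA hT (1 / 2) (by norm_num) (L + 4) v hv'
    obtain ⟨P, hP⟩ : ∃ P : ℝ, P = (T.card : ℝ) ^ (2 * (L + 4)) := ⟨_, rfl⟩
    have hP0 : 0 < P := by rw [hP]; positivity
    have hni' : |∑ t ∈ Fintype.piFinset (fun _ : Fin (L + 4) => T),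
        ∑ t' ∈ Fintype.piFinset (fun _ : Fin (L + 4) => T),
        (hh A S (v + ∑ i, (t i + t' i)) - hh A S (∑ i, (t i + t' i)))| ≤ 1 / 256 * P := by
      refine hni.trans ?_
      rw [← hP]
      apply mul_le_mul_of_nonneg_right _ hP0.le
      have h1 : (1 / 2 : ℝ) ^ (2 * (L + 4)) = 1 / (2 ^ L * 2 ^ L * 256) := by
        rw [one_div_pow]
        congr 1
        rw [show 2 * (L + 4) = L + L + 8 by ring, pow_add, pow_add]
        norm_num
      rw [h1]
      have h2 : 2 * ((Fintype.card G : ℝ) / A.card) * (1 / (2 ^ L * 2 ^ L * 256)) ≤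
          2 * 2 ^ L * (1 / (2 ^ L * 2 ^ L * 256)) := by
        apply mul_le_mul_of_nonneg_right _ (by positivity)
        linarith
      refine h2.trans ?_
      have h3 : (2 : ℝ) * 2 ^ L * (1 / (2 ^ L * 2 ^ L * 256)) = 1 / (128 * 2 ^ L) := by
        field_simp
        norm_num
      rw [h3]
      apply one_div_le_one_div_of_le (by norm_num)
      have h4 : (2 : ℝ) ^ 1 ≤ 2 ^ L := pow_le_pow_right₀ (by norm_num) hL
      linarith
    have hconst : ∀ c : ℝ, ∑ _t ∈ Fintype.piFinset (fun _ : Fin (L + 4) => T),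
        ∑ _t' ∈ Fintype.piFinset (fun _ : Fin (L + 4) => T), c = P * c := by
      intro c
      rw [Finset.sum_const, Finset.sum_const, Fintype.card_piFinset, Finset.prod_const,
        Finset.card_univ, Fintype.card_fin, nsmul_eq_mul, nsmul_eq_mul, hP, two_mul, pow_add]
      push_cast
      ring
    have hb1 : ∀ (F : (Fin (L + 4) → G) → (Fin (L + 4) → G) → ℝ) (c : ℝ),
        (∀ t t', (∀ i, t i ∈ T) → (∀ i, t' i ∈ T) → |F t t'| ≤ c) →
        |∑ t ∈ Fintype.piFinset (fun _ : Fin (L + 4) => T),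
          ∑ t' ∈ Fintype.piFinset (fun _ : Fin (L + 4) => T), F t t'| ≤ P * c := by
      intro F c hF
      rw [← hconst c]
      refine (Finset.abs_sum_le_sum_abs _ _).trans (Finset.sum_le_sum fun t ht => ?_)
      refine (Finset.abs_sum_le_sum_abs _ _).trans (Finset.sum_le_sum fun t' ht' => ?_)
      exact hF t t' (Fintype.mem_piFinset.1 ht) (Fintype.mem_piFinset.1 ht')
    have e1 := hb1 (fun t t' => hh A S v - hh A S (v + ∑ i, (t i + t' i))) (1 / 100)
      (fun t t' ht ht' => hit v t t' ht ht')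
    have e2 := hb1 (fun t t' => hh A S 0 - hh A S (∑ i, (t i + t' i))) (1 / 100)
      (fun t t' ht ht' => by
        have h := hit 0 t t' ht ht'
        rwa [zero_add] at h)
    have e3 : P * (hh A S v - hh A S 0) =
        (∑ t ∈ Fintype.piFinset (fun _ : Fin (L + 4) => T),
          ∑ t' ∈ Fintype.piFinset (fun _ : Fin (L + 4) => T),
            (hh A S v - hh A S (v + ∑ i, (t i + t' i)))) +
        (∑ t ∈ Fintype.piFinset (fun _ : Fin (L + 4) => T),
          ∑ t' ∈ Fintype.piFinset (fun _ : Fin (L + 4) => T),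
            (hh A S (v + ∑ i, (t i + t' i)) - hh A S (∑ i, (t i + t' i)))) -
        ∑ t ∈ Fintype.piFinset (fun _ : Fin (L + 4) => T),
          ∑ t' ∈ Fintype.piFinset (fun _ : Fin (L + 4) => T),
            (hh A S 0 - hh A S (∑ i, (t i + t' i))) := by
      rw [← hconst, ← Finset.sum_add_distrib, ← Finset.sum_sub_distrib]
      refine Finset.sum_congr rfl fun t _ => ?_
      rw [← Finset.sum_add_distrib, ← Finset.sum_sub_distrib]
      refine Finset.sum_congr rfl fun t' _ => ?_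
      ring
    have e4 : |P * (hh A S v - hh A S 0)| ≤ P * (1 / 32) := by
      rw [e3]
      have f1 := abs_le.1 e1
      have f2 := abs_le.1 e2
      have f3 := abs_le.1 hni'
      rw [abs_le]
      constructor
      · linarith [f1.1, f2.2, f3.1]
      · linarith [f1.2, f2.1, f3.2]
    rw [abs_mul, abs_of_pos hP0] at e4
    exact le_of_mul_le_mul_left e4 hP0

end Pool.Agent.Helper22.KM
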