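import Pool.Agent.Helper22.KM.K2
import Pool.Agent.Helper22.KM.K3
import Pool.Agent.Helper22.KM.K9

set_option autoImplicit false

/-! KM-10: density increment.
Proof: KM-2 with `p = 2 d + 7`, `γ = 2^(-d)`; KM-3 with `q = 5 p = 10 d + 35` gives `A` with
`N ≤ 2^(d q + 1) |A|`, `d q + 1 ≤ 46 d^2`; KM-9 with `L = 46 d^2` gives `V` with
`hh A S v ≥ 15/16` for `v ∈ V`, where on `S` one has `rep B > 9/8 b^2/N`.  Averaging over `V`
and `A × A`: some `w` has `∑_{v ∈ V} rep B (w + v) ≥ (15/16)(9/8)(b^2/N)|V|`, and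
`∑_{v ∈ V} rep B (w + v) = ∑_{z ∈ B} #{v ∈ V | z + w + v ∈ B}`. -/

open Finset Module

namespace Pool.Agent.Helper22.KM

private theorem k10_hh {G : Type} [AddCommGroup G] [DecidableEq G] (A S : Finset G)
    (hA : A.Nonempty) (x : G) :
    (A.card : ℝ) ^ 2 * hh A S x
      = ∑ a ∈ A, ∑ a' ∈ A, if a' + (a + x) ∈ S then (1 : ℝ) else 0 := by
  have hc : (A.card : ℝ) ≠ 0 := by exact_mod_cast hA.card_pos.ne'
  have hg : ∀ y : G, (A.card : ℝ) * gg A S y = ∑ a ∈ A, if a + y ∈ S then (1 : ℝ) else 0 := by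
    intro y
    unfold gg
    rw [mul_div_cancel₀ _ hc, Finset.card_filter]
    push_cast
    rfl
  unfold hh
  rw [sq, mul_assoc, mul_div_cancel₀ _ hc, Finset.mul_sum]
  exact Finset.sum_congr rfl fun a _ => hg _

private theorem k10_len {N b a : ℝ} {d q : ℕ} (hN : 0 < N) (hb : 0 < b) (ha : 0 ≤ a)
    (hq : d * q + 1 ≤ 46 * d ^ 2)
    (hB : N ≤ 2 ^ d * b) (hA : (b / N) ^ q * N / 2 ≤ a) : N ≤ 2 ^ (46 * d ^ 2) * a := by
  have h1 : ((2 : ℝ) ^ d)⁻¹ ≤ b / N := by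
    rw [le_div_iff₀ hN, inv_mul_le_iff₀ (by positivity)]
    exact hB
  have h2 : (((2 : ℝ) ^ d)⁻¹) ^ q ≤ (b / N) ^ q := pow_le_pow_left₀ (by positivity) h1 q
  have h3 : (((2 : ℝ) ^ d)⁻¹) ^ q * N / 2 ≤ a := by
    refine le_trans ?_ hA
    have := mul_le_mul_of_nonneg_right h2 hN.le
    linarith
  have h4 : (((2 : ℝ) ^ d)⁻¹) ^ q = ((2 : ℝ) ^ (d * q))⁻¹ := by
    rw [inv_pow, ← pow_mul]
  rw [h4] at h3
  have h5 : N ≤ 2 ^ (d * q + 1) * a := by
    have h6 : ((2 : ℝ) ^ (d * q))⁻¹ * N / 2 * 2 ^ (d * q + 1) = N := by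
      rw [pow_succ]
      field_simp
    have h7 := mul_le_mul_of_nonneg_right h3 (by positivity : (0 : ℝ) ≤ 2 ^ (d * q + 1))
    rw [h6] at h7
    linarith
  refine h5.trans (mul_le_mul_of_nonneg_right ?_ ha)
  exact pow_le_pow_right₀ (by norm_num) hq

open Classical in
private theorem k10_swap {G : Type} [AddCommGroup G] [Module (ZMod 2) G] [Fintype G]
    [DecidableEq G] (B : Finset G) (V : Submodule (ZMod 2) G) (w : G) :
    ∑ v ∈ Finset.univ.filter (fun x : G => x ∈ V), (rep B (w + v) : ℝ)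
      = ∑ z ∈ B, ((Finset.univ.filter (fun x : G => x ∈ V ∧ (z + w) + x ∈ B)).card : ℝ) := by
  have h1 : ∀ v : G, (rep B (w + v) : ℝ)
      = ∑ z ∈ B, if z + (w + v) ∈ B then (1 : ℝ) else 0 := by
    intro v
    unfold rep
    rw [Finset.card_filter]
    push_cast
    rfl
  rw [Finset.sum_congr rfl fun v _ => h1 v, Finset.sum_comm]
  refine Finset.sum_congr rfl fun z _ => ?_
  rw [← Finset.filter_filter, Finset.card_filter]
  push_cast
  refine Finset.sum_congr rfl fun v _ => ?_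
  rw [add_assoc]

open Classical in
theorem increment {G : Type} [AddCommGroup G] [Module (ZMod 2) G] [Fintype G] [DecidableEq G]
    (B : Finset G) (hB0 : B.Nonempty) (d : ℕ) (hd : 1 ≤ d)
    (hB : (Fintype.card G : ℝ) ≤ 2 ^ d * B.card)
    (hC : (Fintype.card G : ℝ) ≤
      2 ^ d * ((Finset.univ.filter (fun x => rep B x = 0)).card : ℝ)) :
    ∃ V : Submodule (ZMod 2) G,
      finrank (ZMod 2) G ≤ finrank (ZMod 2) V + 18000000000000000 * d ^ 8 ∧
      ∃ y : G, (33 / 32 : ℝ) * ((B.card : ℝ) / Fintype.card G) * Nat.card V ≤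
        ((Finset.univ.filter (fun x : G => x ∈ V ∧ y + x ∈ B)).card : ℝ) := by
  have hbpos : (0 : ℝ) < B.card := by exact_mod_cast hB0.card_pos
  have hNpos : (0 : ℝ) < Fintype.card G := by
    have : Nonempty G := ⟨0⟩
    exact_mod_cast Fintype.card_pos
  have hγ : (2 : ℝ) ≤ 4 ^ (2 * d + 7) * ((2 : ℝ) ^ d)⁻¹ := by
    have h1 : (4 : ℝ) ^ (2 * d + 7) = 2 ^ d * 2 ^ (3 * d + 14) := by
      rw [show (4 : ℝ) = 2 ^ 2 by norm_num, ← pow_mul, ← pow_add]
      congr 1; ring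
    rw [h1, mul_comm, ← mul_assoc, inv_mul_cancel₀ (by positivity), one_mul]
    calc (2 : ℝ) = 2 ^ 1 := by norm_num
      _ ≤ 2 ^ (3 * d + 14) := pow_le_pow_right₀ (by norm_num) (by omega)
  have hmom := rep_moment B hB0 (2 * d + 7) ⟨d + 3, by ring⟩ (((2 : ℝ) ^ d)⁻¹) hγ
    (by rw [inv_mul_le_iff₀ (by positivity)]; exact hC)
  have hq : (9 / 10 : ℝ) ^ (5 * (2 * d + 7)) ≤ 1 / 64 := by
    calc (9 / 10 : ℝ) ^ (5 * (2 * d + 7)) ≤ (9 / 10 : ℝ) ^ 45 :=
          pow_le_pow_of_le_one (by norm_num) (by norm_num) (by omega)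
      _ ≤ 1 / 64 := by norm_num
  obtain ⟨A, hA, hAc, hS⟩ := sift B hB0 (5 * (2 * d + 7)) hq hmom
  set S : Finset G := Finset.univ.filter
    (fun x => (9 / 8 : ℝ) * ((B.card : ℝ) ^ 2 / Fintype.card G) < rep B x) with hSdef
  have hq2 : d * (5 * (2 * d + 7)) + 1 ≤ 46 * d ^ 2 := by nlinarith
  have hL := k10_len hNpos hbpos (Nat.cast_nonneg A.card) hq2 hB hAc
  have hL1 : 1 ≤ 46 * d ^ 2 := by nlinarith
  obtain ⟨V, hV, hinv⟩ := almost_invariant A S hA (46 * d ^ 2) hL1 hL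
  refine ⟨V, ?_, ?_⟩
  · have h1 : 4000000000 * (46 * d ^ 2) ^ 4 ≤ 18000000000000000 * d ^ 8 := by
      have h2 : 4000000000 * (46 * d ^ 2) ^ 4 = 17909824000000000 * d ^ 8 := by ring
      rw [h2]
      exact Nat.mul_le_mul_right _ (by norm_num)
    omega
  by_contra hcon
  push Not at hcon
  have hVc : (Nat.card V : ℝ) = ((Finset.univ.filter (fun x : G => x ∈ V)).card : ℝ) := by
    rw [Nat.card_eq_fintype_card, Fintype.card_subtype]
  have hVpos : (0 : ℝ) < Nat.card V := by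
    have : Nonempty V := ⟨0⟩
    exact_mod_cast Nat.card_pos
  have hApos : (0 : ℝ) < A.card := by exact_mod_cast hA.card_pos
  set VF : Finset G := Finset.univ.filter (fun x : G => x ∈ V) with hVF
  -- lower bound
  have hlow : ∀ v ∈ VF, (9 / 8 : ℝ) * ((B.card : ℝ) ^ 2 / Fintype.card G) *
      ((A.card : ℝ) ^ 2 * (15 / 16)) ≤ ∑ a ∈ A, ∑ a' ∈ A, (rep B (a' + (a + v)) : ℝ) := by
    intro v hv
    have hv' : v ∈ V := (Finset.mem_filter.1 hv).2
    have h1 : (15 / 16 : ℝ) ≤ hh A S v := by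
      have h2 := abs_le.1 (hinv v hv')
      linarith [h2.1]
    have h3 : (A.card : ℝ) ^ 2 * (15 / 16) ≤
        ∑ a ∈ A, ∑ a' ∈ A, if a' + (a + v) ∈ S then (1 : ℝ) else 0 := by
      rw [← k10_hh A S hA]
      exact mul_le_mul_of_nonneg_left h1 (by positivity)
    refine (mul_le_mul_of_nonneg_left h3 (by positivity)).trans ?_
    rw [Finset.mul_sum]
    refine Finset.sum_le_sum fun a _ => ?_
    rw [Finset.mul_sum]
    refine Finset.sum_le_sum fun a' _ => ?_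
    split_ifs with h4
    · rw [mul_one]
      exact (Finset.mem_filter.1 h4).2.le
    · rw [mul_zero]
      positivity
  have hlow2 := Finset.sum_le_sum hlow
  rw [Finset.sum_const, nsmul_eq_mul, ← hVc] at hlow2
  -- upper bound
  have hup : ∑ v ∈ VF, ∑ a ∈ A, ∑ a' ∈ A, (rep B (a' + (a + v)) : ℝ) ≤
      (A.card : ℝ) * ((A.card : ℝ) * ((B.card : ℝ) *
        ((33 / 32 : ℝ) * ((B.card : ℝ) / Fintype.card G) * Nat.card V))) := by
    rw [Finset.sum_comm]
    have h1 : ∀ a ∈ A, ∑ v ∈ VF, ∑ a' ∈ A, (rep B (a' + (a + v)) : ℝ) ≤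
        (A.card : ℝ) * ((B.card : ℝ) *
        ((33 / 32 : ℝ) * ((B.card : ℝ) / Fintype.card G) * Nat.card V)) := by
      intro a _
      rw [Finset.sum_comm]
      have h2 : ∀ a' ∈ A, ∑ v ∈ VF, (rep B (a' + (a + v)) : ℝ) ≤
          (B.card : ℝ) * ((33 / 32 : ℝ) * ((B.card : ℝ) / Fintype.card G) * Nat.card V) := by
        intro a' _
        have h3 : ∑ v ∈ VF, (rep B (a' + (a + v)) : ℝ) = ∑ v ∈ VF, (rep B ((a' + a) + v) : ℝ) :=
          Finset.sum_congr rfl fun v _ => by rw [add_assoc]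
        rw [h3, hVF, k10_swap]
        refine (Finset.sum_le_sum fun z _ => (hcon (z + (a' + a))).le).trans ?_
        rw [Finset.sum_const, nsmul_eq_mul]
      refine (Finset.sum_le_sum h2).trans ?_
      rw [Finset.sum_const, nsmul_eq_mul]
    refine (Finset.sum_le_sum h1).trans ?_
    rw [Finset.sum_const, nsmul_eq_mul]
  have hfin := hlow2.trans hup
  have hpos : (0 : ℝ) < (B.card : ℝ) ^ 2 / Fintype.card G * (A.card : ℝ) ^ 2 * Nat.card V := by
    positivity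
  have e1 : (Nat.card V : ℝ) * ((9 / 8 : ℝ) * ((B.card : ℝ) ^ 2 / Fintype.card G) *
      ((A.card : ℝ) ^ 2 * (15 / 16)))
      = 135 / 128 * ((B.card : ℝ) ^ 2 / Fintype.card G * (A.card : ℝ) ^ 2 * Nat.card V) := by
    ring
  have e2 : (A.card : ℝ) * ((A.card : ℝ) * ((B.card : ℝ) *
        ((33 / 32 : ℝ) * ((B.card : ℝ) / Fintype.card G) * Nat.card V)))
      = 33 / 32 * ((B.card : ℝ) ^ 2 / Fintype.card G * (A.card : ℝ) ^ 2 * Nat.card V) := by
    ring
  rw [e1, e2] at hfin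
  linarith

end Pool.Agent.Helper22.KM
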