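import Pool.Agent.Helper22.KM.Defs

set_option autoImplicit false

/-! KM-11: greedy choice of a subspace avoiding a sparse set.
Proof: extend `W` of dimension `j < d` avoiding `C` by a vector outside `W` and outside
`W + C`; there are at most `2^j + 2^j |C| < |G|` excluded vectors. -/

open Finset Module

namespace Pool.Agent.Helper22.KM

theorem greedy {G : Type} [AddCommGroup G] [Module (ZMod 2) G] [Fintype G] [DecidableEq G]
    (C : Finset G) (d : ℕ) (h0 : (0 : G) ∉ C) (hdim : d ≤ finrank (ZMod 2) G)
    (hC : 2 ^ d * C.card < Fintype.card G) :
    ∃ W : Submodule (ZMod 2) G, finrank (ZMod 2) W = d ∧ ∀ w ∈ W, w ∉ C := by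
  classical
  have hfin : Module.Finite (ZMod 2) G := Module.Finite.of_finite
  have hG : Fintype.card G = 2 ^ finrank (ZMod 2) G := by
    have := Module.card_eq_pow_finrank (K := ZMod 2) (V := G)
    simpa [Nat.card_eq_fintype_card] using this
  have key : ∀ j : ℕ, j ≤ d → ∃ W : Submodule (ZMod 2) G, finrank (ZMod 2) W = j ∧
      ∀ w ∈ W, w ∉ C := by
    intro j
    induction j with
    | zero =>
      intro _
      refine ⟨⊥, finrank_bot _ _, ?_⟩
      intro w hw
      rw [Submodule.mem_bot] at hw
      rw [hw]; exact h0
    | succ j ih =>
      intro hj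
      obtain ⟨W, hW, hWC⟩ := ih (by omega)
      have hWcard : (univ.filter (fun x : G => x ∈ W)).card = 2 ^ j := by
        have h1 := Module.card_eq_pow_finrank (K := ZMod 2) (V := W)
        rw [hW] at h1
        have h2 : Nat.card W = (univ.filter (fun x : G => x ∈ W)).card := by
          rw [Nat.card_eq_fintype_card]
          exact Fintype.card_subtype _
        rw [← h2]
        simpa [Nat.card_eq_fintype_card] using h1
      set WF := univ.filter (fun x : G => x ∈ W) with hWF
      set bad := WF ∪ (WF ×ˢ C).image (fun p => p.1 + p.2) with hbad
      have hlt : bad.card < Fintype.card G := by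
        have h1 : bad.card ≤ 2 ^ j + 2 ^ j * C.card := by
          refine (card_union_le _ _).trans ?_
          refine add_le_add hWcard.le (card_image_le.trans ?_)
          rw [card_product, hWcard]
        rcases Nat.eq_zero_or_pos C.card with hc | hc
        · rw [hc] at h1
          have : 2 ^ j < 2 ^ finrank (ZMod 2) G :=
            Nat.pow_lt_pow_right (by norm_num) (by omega)
          rw [hG]
          omega
        · have h2 : 2 ^ j + 2 ^ j * C.card ≤ 2 ^ d * C.card := by
            have h3 : 2 ^ (j + 1) ≤ 2 ^ d := Nat.pow_le_pow_right (by norm_num) hj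
            have h4 : 2 ^ j ≤ 2 ^ j * C.card := Nat.le_mul_of_pos_right _ hc
            calc 2 ^ j + 2 ^ j * C.card ≤ 2 ^ j * C.card + 2 ^ j * C.card := by omega
              _ = 2 ^ (j + 1) * C.card := by ring
              _ ≤ 2 ^ d * C.card := Nat.mul_le_mul_right _ h3
          omega
      obtain ⟨v, hv⟩ : ∃ v : G, v ∉ bad := by
        by_contra hcon
        push Not at hcon
        have : bad = univ := by ext x; simp [hcon x]
        rw [this, card_univ] at hlt
        exact lt_irrefl _ hlt
      have hvW : v ∉ W := by
        intro h
        apply hv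
        rw [hbad, mem_union]
        left
        rw [hWF]; simp [h]
      have hv0 : v ≠ 0 := fun h => hvW (h ▸ W.zero_mem)
      refine ⟨W ⊔ Submodule.span (ZMod 2) {v}, ?_, ?_⟩
      · have h1 := Submodule.finrank_sup_add_finrank_inf_eq W (Submodule.span (ZMod 2) {v})
        have h2 : W ⊓ Submodule.span (ZMod 2) {v} = ⊥ := by
          rw [← disjoint_iff, Submodule.disjoint_span_singleton' hv0]
          exact hvW
        rw [h2, finrank_bot, finrank_span_singleton hv0, hW] at h1
        omega
      · intro w hw
        rw [Submodule.mem_sup] at hw
        obtain ⟨y, hy, z, hz, rfl⟩ := hw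
        rw [Submodule.mem_span_singleton] at hz
        obtain ⟨a, rfl⟩ := hz
        have ha : a = 0 ∨ a = 1 := by revert a; decide
        rcases ha with rfl | rfl
        · simpa using hWC y hy
        · intro hmem
          apply hv
          rw [hbad, mem_union]
          right
          rw [mem_image]
          refine ⟨(y, y + (1 : ZMod 2) • v), ?_, ?_⟩
          · rw [mem_product]
            refine ⟨?_, hmem⟩
            rw [hWF]; simp [hy]
          · have h2 : y + y = 0 := by
              rw [← two_smul (ZMod 2) y]
              have : (2 : ZMod 2) = 0 := by decide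
              rw [this, zero_smul]
            simp only [one_smul]
            rw [← add_assoc, h2, zero_add]
  exact key d le_rfl

end Pool.Agent.Helper22.KM
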