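import Pool.Agent.Helper22.KM.K10
import Pool.Agent.Helper22.KM.K11
import Pool.Agent.Helper22.SR.Defs

set_option autoImplicit false

/-! KM-12: iteration and the polynomial upper bound.
Proof: claim by induction on `j`, for all `G` and nonempty `B`: if `N ≤ 2^d b`,
`1 < (33/32)^j b / N` and `j M + d ≤ finrank G` (`M = 18000000000000000 d^8`) then there is `W`
with `finrank W = d` and `rep B w ≠ 0` for all `w ∈ W`.  (`j = 0` is impossible; in the step use
greedy on `C = {x | rep B x = 0}` if `2^d |C| < N`, otherwise `increment` and the induction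
hypothesis in `V` for `{v : V | y + v ∈ B}`.)  Start with `j = 23 d`, as `(33/32)^23 > 2`.
For the sum-free set `A = A 0` in `Fin n → ZMod 2`: if `2^d |A| < N` use greedy for `A`, otherwise
the claim for `B = A`: `rep A w ≠ 0` means `w = y + (y + w)` with `y, y + w ∈ A`, so `w ∉ A`. -/

open Finset Module

namespace Pool.Agent.Helper22.KM

open Pool.Agent.Helper22.SR

open Classical in
theorem iteration (d : ℕ) (hd : 1 ≤ d) (j : ℕ) :
    ∀ (G : Type) [AddCommGroup G] [Module (ZMod 2) G] [Fintype G] [DecidableEq G]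
      (B : Finset G), B.Nonempty → (Fintype.card G : ℝ) ≤ 2 ^ d * B.card →
      1 < (33 / 32 : ℝ) ^ j * ((B.card : ℝ) / Fintype.card G) →
      j * (18000000000000000 * d ^ 8) + d ≤ finrank (ZMod 2) G →
      ∃ W : Submodule (ZMod 2) G, finrank (ZMod 2) W = d ∧ ∀ w ∈ W, rep B w ≠ 0 := by
  induction j with
  | zero =>
    intro G _ _ _ _ B hB0 hB h1 _
    exfalso
    rw [pow_zero, one_mul] at h1
    have hN : (0 : ℝ) < Fintype.card G := by
      obtain ⟨x, _⟩ := hB0
      exact_mod_cast Fintype.card_pos_iff.mpr ⟨x⟩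
    rw [lt_div_iff₀ hN, one_mul] at h1
    have h2 : (B.card : ℝ) ≤ Fintype.card G := by exact_mod_cast Finset.card_le_univ B
    linarith
  | succ j ih =>
    intro G _ _ _ _ B hB0 hB h1 hdim
    have hN : (0 : ℝ) < Fintype.card G := by
      obtain ⟨x, _⟩ := hB0
      exact_mod_cast Fintype.card_pos_iff.mpr ⟨x⟩
    set C : Finset G := Finset.univ.filter (fun x => rep B x = 0) with hC
    have hrep0 : rep B 0 ≠ 0 := by
      unfold rep
      rw [Finset.card_ne_zero]
      obtain ⟨x, hx⟩ := hB0
      exact ⟨x, by rw [Finset.mem_filter, add_zero]; exact ⟨hx, hx⟩⟩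
    by_cases hCc : 2 ^ d * C.card < Fintype.card G
    · obtain ⟨W, hW, hWC⟩ := greedy C d (by
        rw [hC, Finset.mem_filter]
        rintro ⟨_, h⟩
        exact hrep0 h) (by
        have : d ≤ (j + 1) * (18000000000000000 * d ^ 8) + d := Nat.le_add_left _ _
        omega) hCc
      refine ⟨W, hW, fun w hw h => hWC w hw ?_⟩
      rw [hC, Finset.mem_filter]
      exact ⟨Finset.mem_univ _, h⟩
    · push Not at hCc
      obtain ⟨V, hV, y, hy⟩ := increment B hB0 d hd hB (by exact_mod_cast hCc)
      -- the new set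
      let B' : Finset V := Finset.univ.filter (fun v : V => y + (v : G) ∈ B)
      have hB'card : B'.card =
          (Finset.univ.filter (fun x : G => x ∈ V ∧ y + x ∈ B)).card := by
        apply Finset.card_bij (fun (v : V) _ => (v : G))
        · intro v hv
          rw [Finset.mem_filter] at hv ⊢
          exact ⟨Finset.mem_univ _, v.2, hv.2⟩
        · intro a _ b _ hab
          exact Subtype.ext hab
        · intro x hx
          rw [Finset.mem_filter] at hx
          exact ⟨⟨x, hx.2.1⟩, by rw [Finset.mem_filter]; exact ⟨Finset.mem_univ _, hx.2.2⟩, rfl⟩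
      have hVN : (0 : ℝ) < Nat.card V := by
        have : 0 < Nat.card V := Nat.card_pos
        exact_mod_cast this
      have hVcard : (Fintype.card V : ℝ) = Nat.card V := by
        rw [Nat.card_eq_fintype_card]
      have hdens : (33 / 32 : ℝ) * ((B.card : ℝ) / Fintype.card G) ≤
          (B'.card : ℝ) / Fintype.card V := by
        rw [hB'card, hVcard, le_div_iff₀ hVN]
        exact hy
      have hBpos : (0 : ℝ) < B.card := by exact_mod_cast hB0.card_pos
      have hq : (0 : ℝ) < (B.card : ℝ) / Fintype.card G := div_pos hBpos hN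
      have hB'pos : (0 : ℝ) < B'.card := by
        have h2 : (0 : ℝ) < (B'.card : ℝ) / Fintype.card V := lt_of_lt_of_le (by positivity) hdens
        rw [hVcard] at h2
        by_contra hcon
        push Not at hcon
        have h3 : (B'.card : ℝ) / Nat.card V ≤ 0 := div_nonpos_of_nonpos_of_nonneg hcon hVN.le
        linarith
      have hB'ne : B'.Nonempty := by
        rw [← Finset.card_pos]
        exact_mod_cast hB'pos
      have hV' : j * (18000000000000000 * d ^ 8) + d ≤ finrank (ZMod 2) V := by
        have h4 : (j + 1) * (18000000000000000 * d ^ 8) =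
            j * (18000000000000000 * d ^ 8) + 18000000000000000 * d ^ 8 := by ring
        omega
      obtain ⟨W, hW, hWr⟩ := ih V B' hB'ne (by
        rw [hVcard]
        have h5 : (1 : ℝ) ≤ 2 ^ d * ((B.card : ℝ) / Fintype.card G) := by
          rw [← mul_div_assoc, le_div_iff₀ hN, one_mul]
          exact hB
        have h6 : (B.card : ℝ) / Fintype.card G ≤ (B'.card : ℝ) / Nat.card V := by
          rw [← hVcard]
          linarith
        have h7 : (1 : ℝ) ≤ 2 ^ d * ((B'.card : ℝ) / Nat.card V) :=
          h5.trans (mul_le_mul_of_nonneg_left h6 (by positivity))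
        rw [← mul_div_assoc, le_div_iff₀ hVN, one_mul] at h7
        exact h7) (by
        calc (1 : ℝ) < (33 / 32 : ℝ) ^ (j + 1) * ((B.card : ℝ) / Fintype.card G) := h1
          _ = (33 / 32 : ℝ) ^ j * ((33 / 32 : ℝ) * ((B.card : ℝ) / Fintype.card G)) := by
              rw [pow_succ]; ring
          _ ≤ (33 / 32 : ℝ) ^ j * ((B'.card : ℝ) / Fintype.card V) :=
              mul_le_mul_of_nonneg_left hdens (by positivity)) hV'
      refine ⟨W.map V.subtype, ?_, ?_⟩
      · rw [Submodule.finrank_map_subtype_eq, hW]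
      · rintro _ ⟨w, hw, rfl⟩
        have h8 := hWr w hw
        unfold rep at h8 ⊢
        rw [Finset.card_ne_zero] at h8 ⊢
        obtain ⟨v, hv⟩ := h8
        rw [Finset.mem_filter, Finset.mem_filter, Finset.mem_filter] at hv
        refine ⟨y + v, ?_⟩
        rw [Finset.mem_filter]
        refine ⟨hv.1.2, ?_⟩
        have h9 := hv.2.2
        rw [Submodule.coe_add] at h9
        rw [add_assoc]
        exact h9

theorem not_avoid_one (d n : ℕ) (hd : 1 ≤ d) (hn : 1000000000000000000 * d ^ 9 ≤ n) :
    ¬ Avoid 1 d n := by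
  classical
  rintro ⟨A, hA, hW⟩
  have hfr : finrank (ZMod 2) (Fin n → ZMod 2) = n := Module.finrank_fin_fun _
  set S : Finset (Fin n → ZMod 2) := Finset.univ.filter (fun x => x ∈ A 0) with hS
  have hS0 : (0 : Fin n → ZMod 2) ∉ S := by
    rw [hS, Finset.mem_filter]
    rintro ⟨_, h⟩
    exact not_mem_zero (hA 0) h
  have hd8 : d ^ 9 = d ^ 8 * d := pow_succ d 8
  have hd81 : 1 ≤ d ^ 8 := Nat.one_le_pow _ _ hd
  have hdn : d ≤ n := by
    have : d * 1 ≤ d * d ^ 8 := Nat.mul_le_mul_left d hd81
    nlinarith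
  by_cases hc : 2 ^ d * S.card < Fintype.card (Fin n → ZMod 2)
  · obtain ⟨W, hWd, hWS⟩ := greedy S d hS0 (by rw [hfr]; exact hdn) hc
    obtain ⟨i, w, hw, hwA⟩ := hW W hWd
    apply hWS w hw
    rw [hS, Finset.mem_filter]
    have hi : i = 0 := Subsingleton.elim _ _
    rw [hi] at hwA
    exact ⟨Finset.mem_univ _, hwA⟩
  · push Not at hc
    have hcR : (Fintype.card (Fin n → ZMod 2) : ℝ) ≤ 2 ^ d * S.card := by exact_mod_cast hc
    have hN : (0 : ℝ) < Fintype.card (Fin n → ZMod 2) := by
      exact_mod_cast Fintype.card_pos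
    have hSne : S.Nonempty := by
      rw [← Finset.card_pos]
      by_contra h
      have h0 : S.card = 0 := by omega
      rw [h0, Nat.cast_zero, mul_zero] at hcR
      linarith
    obtain ⟨W, hWd, hWr⟩ := iteration d hd (23 * d) (Fin n → ZMod 2) S hSne hcR (by
      have h1 : (1 : ℝ) ≤ 2 ^ d * ((S.card : ℝ) / Fintype.card (Fin n → ZMod 2)) := by
        rw [← mul_div_assoc, le_div_iff₀ hN, one_mul]
        exact hcR
      have h2 : (2 : ℝ) ^ d < ((33 / 32 : ℝ) ^ 23) ^ d :=
        pow_lt_pow_left₀ (by norm_num) (by norm_num) (by omega)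
      have h3 : (0 : ℝ) < (S.card : ℝ) / Fintype.card (Fin n → ZMod 2) := by
        have : (0 : ℝ) < S.card := by exact_mod_cast hSne.card_pos
        positivity
      rw [pow_mul]
      calc (1 : ℝ) ≤ 2 ^ d * ((S.card : ℝ) / Fintype.card (Fin n → ZMod 2)) := h1
        _ < _ := mul_lt_mul_of_pos_right h2 h3) (by
      rw [hfr]
      have : 23 * d * (18000000000000000 * d ^ 8) + d ≤ 1000000000000000000 * d ^ 9 := by
        rw [hd8]
        have h4 : d * 1 ≤ d * d ^ 8 := Nat.mul_le_mul_left d hd81
        have h5 : 23 * d * (18000000000000000 * d ^ 8) = 414000000000000000 * (d ^ 8 * d) := by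
          ring
        have h6 : d * d ^ 8 = d ^ 8 * d := mul_comm _ _
        rw [h5]
        omega
      omega)
    obtain ⟨i, w, hw, hwA⟩ := hW W hWd
    have hi : i = 0 := Subsingleton.elim _ _
    rw [hi] at hwA
    have h7 := hWr w hw
    unfold rep at h7
    rw [Finset.card_ne_zero] at h7
    obtain ⟨z, hz⟩ := h7
    rw [Finset.mem_filter, hS, Finset.mem_filter, Finset.mem_filter] at hz
    have h8 := hA 0 z hz.1.2 (z + w) hz.2.2
    apply h8
    rw [← add_assoc, add_self_eq, zero_add]
    exact hwA

end Pool.Agent.Helper22.KM
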