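import Pool.Agent.Helper22.KM.K1

set_option autoImplicit false

/-! KM-2: if `B + B` misses a proportion `γ` of `G` then a high moment of `rep B` is large.
Proof: `b = |B|`, `N = |G|`, `φ = 1_B - b/N`, so that the autocorrelation of `φ` is
`rep B x - b^2/N = (b^2/N) f(x)` with `f = -1` where `rep B x = 0`.  By KM-1 (`p` odd)
`∑_{f>0} f^p ≥ ∑_{f<0} |f|^p ≥ γ N`, hence `∑_{f ≥ 1/4} f^p ≥ γ N - 4^(-p) N ≥ γ N / 2`.
The tangent line inequality gives `(1+f)^5 ≥ 5 (5/4)^4 f = 4 (5/4)^5 f` for `f ≥ 0`, so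
`∑ (1+f)^(5p) ≥ 4^p (5/4)^(5p) γ N / 2 ≥ (5/4)^(5p) N`. -/

open Finset Module

namespace Pool.Agent.Helper22.KM

theorem rep_moment {G : Type} [AddCommGroup G] [Module (ZMod 2) G] [Fintype G] [DecidableEq G]
    (B : Finset G) (hB : B.Nonempty) (p : ℕ) (hp : Odd p) (γ : ℝ) (hγ : 2 ≤ 4 ^ p * γ)
    (hC : γ * Fintype.card G ≤ ((Finset.univ.filter (fun x => rep B x = 0)).card : ℝ)) :
    ((5 / 4 : ℝ) * ((B.card : ℝ) ^ 2 / Fintype.card G)) ^ (5 * p) * Fintype.card G ≤
      ∑ x, (rep B x : ℝ) ^ (5 * p) := by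
  classical
  obtain ⟨N, hN⟩ : ∃ N : ℝ, N = Fintype.card G := ⟨_, rfl⟩
  obtain ⟨b, hb⟩ : ∃ b : ℝ, b = B.card := ⟨_, rfl⟩
  have hN0 : 0 < N := by
    rw [hN]
    have : Nonempty G := ⟨hB.choose⟩
    exact_mod_cast Fintype.card_pos
  have hb0 : 0 < b := by
    rw [hb]
    exact_mod_cast hB.card_pos
  rw [← hN] at hC ⊢
  rw [← hb]
  obtain ⟨c, hc⟩ : ∃ c : ℝ, c = b ^ 2 / N := ⟨_, rfl⟩
  have hc0 : 0 < c := by rw [hc]; positivity
  rw [← hc]
  -- the autocorrelation
  have hrep : ∀ x, (rep B x : ℝ) =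
      ∑ z, (if z ∈ B then (1 : ℝ) else 0) * (if z + x ∈ B then (1 : ℝ) else 0) := by
    intro x
    unfold rep
    rw [Finset.card_filter, Nat.cast_sum, ← Finset.sum_filter_add_sum_filter_not Finset.univ
      (fun z => z ∈ B)]
    have h2 : ∑ z ∈ Finset.univ.filter (fun z => ¬ z ∈ B),
        (if z ∈ B then (1 : ℝ) else 0) * (if z + x ∈ B then (1 : ℝ) else 0) = 0 := by
      apply Finset.sum_eq_zero
      intro z hz
      rw [if_neg (Finset.mem_filter.1 hz).2, zero_mul]
    rw [h2, add_zero]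
    have h3 : Finset.univ.filter (fun z => z ∈ B) = B := by ext z; simp
    rw [h3]
    refine Finset.sum_congr rfl fun z hz => ?_
    rw [if_pos hz, one_mul]
    push_cast
    rfl
  have hcorr : ∀ x, ∑ z, ((if z ∈ B then (1 : ℝ) else 0) - b / N) *
      ((if z + x ∈ B then (1 : ℝ) else 0) - b / N) = rep B x - c := by
    intro x
    have h1 : ∑ z : G, (if z ∈ B then (1 : ℝ) else 0) = b := by
      rw [Finset.sum_boole, hb]
      congr 2
      ext z; simp
    have h2 : ∑ z : G, (if z + x ∈ B then (1 : ℝ) else 0) = b := by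
      rw [← h1]
      exact Fintype.sum_equiv (Equiv.addRight x) _ _ fun z => rfl
    have h3 : ∀ z, ((if z ∈ B then (1 : ℝ) else 0) - b / N) *
      ((if z + x ∈ B then (1 : ℝ) else 0) - b / N) =
      (if z ∈ B then (1 : ℝ) else 0) * (if z + x ∈ B then (1 : ℝ) else 0)
        - b / N * (if z ∈ B then (1 : ℝ) else 0) - b / N * (if z + x ∈ B then (1 : ℝ) else 0)
        + b / N * (b / N) := fun z => by ring
    rw [Finset.sum_congr rfl fun z _ => h3 z, Finset.sum_add_distrib, Finset.sum_sub_distrib,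
      Finset.sum_sub_distrib, ← Finset.mul_sum, ← Finset.mul_sum, h1, h2, ← hrep]
    simp only [Finset.sum_const, Finset.card_univ, nsmul_eq_mul, ← hN]
    rw [hc]
    field_simp
    ring
  have hmom := sum_corr_pow_nonneg (fun z => (if z ∈ B then (1 : ℝ) else 0) - b / N) p
  simp only [hcorr] at hmom
  -- pointwise
  obtain ⟨f, hf⟩ : ∃ f : G → ℝ, ∀ x, (rep B x : ℝ) = c * (1 + f x) :=
    ⟨fun x => rep B x / c - 1, fun x => by field_simp; ring⟩
  have hfm : ∀ x, -1 ≤ f x := by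
    intro x
    have h1 : (0 : ℝ) ≤ rep B x := by positivity
    rw [hf] at h1
    have h2 : 0 ≤ 1 + f x := nonneg_of_mul_nonneg_right h1 hc0
    linarith
  have hfsum : 0 ≤ ∑ x, f x ^ p := by
    have h1 : ∀ x, ((rep B x : ℝ) - c) ^ p = c ^ p * f x ^ p := by
      intro x
      rw [hf, ← mul_pow]
      congr 1
      ring
    rw [Finset.sum_congr rfl fun x _ => h1 x, ← Finset.mul_sum] at hmom
    exact nonneg_of_mul_nonneg_right hmom (by positivity)
  have hpt : ∀ x, 4 ^ p * (5 / 4 : ℝ) ^ (5 * p) * (f x ^ p + if rep B x = 0 then 1 else 0) ≤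
      (1 + f x) ^ (5 * p) := by
    intro x
    by_cases hx : 0 ≤ f x
    · have h1 : rep B x ≠ 0 := by
        intro h0
        have h2 := hf x
        rw [h0, Nat.cast_zero] at h2
        have h3 : 0 < c * (1 + f x) := by positivity
        linarith
      rw [if_neg h1, add_zero]
      have h2 : 4 * (5 / 4 : ℝ) ^ 5 * f x ≤ (1 + f x) ^ 5 := by
        have h3 := one_add_mul_le_pow (a := (1 + f x) / (5 / 4) - 1) (by
          have : 0 ≤ (1 + f x) / (5 / 4) := by positivity
          linarith) 5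
        have h4 : (1 + ((1 + f x) / (5 / 4) - 1)) ^ 5 * (5 / 4 : ℝ) ^ 5 = (1 + f x) ^ 5 := by
          rw [← mul_pow]
          congr 1
          ring
        rw [← h4]
        have h5 : 4 * (5 / 4 : ℝ) ^ 5 * f x =
            (1 + ((5 : ℕ) : ℝ) * ((1 + f x) / (5 / 4) - 1)) * (5 / 4 : ℝ) ^ 5 := by
          push_cast
          ring
        rw [h5]
        exact mul_le_mul_of_nonneg_right h3 (by positivity)
      calc 4 ^ p * (5 / 4 : ℝ) ^ (5 * p) * f x ^ p = (4 * (5 / 4 : ℝ) ^ 5 * f x) ^ p := by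
            rw [mul_pow, mul_pow, ← pow_mul]
        _ ≤ ((1 + f x) ^ 5) ^ p := pow_le_pow_left₀ (by positivity) h2 p
        _ = (1 + f x) ^ (5 * p) := by rw [← pow_mul]
    · have h1 : f x ^ p + (if rep B x = 0 then 1 else 0 : ℝ) ≤ 0 := by
        split_ifs with h2
        · have h3 := hf x
          rw [h2, Nat.cast_zero] at h3
          have h4 : 1 + f x = 0 := by
            rcases mul_eq_zero.1 h3.symm with h | h
            · exact absurd h hc0.ne'
            · exact h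
          have h5 : f x = -1 := by linarith
          rw [h5, hp.neg_one_pow]
          norm_num
        · rw [add_zero]
          exact hp.pow_nonpos (not_le.1 hx).le
      have h2 : 0 ≤ (1 + f x) ^ (5 * p) := pow_nonneg (by linarith [hfm x]) _
      have h3 : 4 ^ p * (5 / 4 : ℝ) ^ (5 * p) * (f x ^ p + if rep B x = 0 then 1 else 0) ≤ 0 :=
        mul_nonpos_of_nonneg_of_nonpos (by positivity) h1
      linarith
  have hsum := Finset.sum_le_sum fun x (_ : x ∈ Finset.univ) => hpt x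
  rw [← Finset.mul_sum, Finset.sum_add_distrib, Finset.sum_boole] at hsum
  have h1 : ∑ x, (rep B x : ℝ) ^ (5 * p) = c ^ (5 * p) * ∑ x, (1 + f x) ^ (5 * p) := by
    rw [Finset.mul_sum]
    refine Finset.sum_congr rfl fun x _ => ?_
    rw [hf, mul_pow]
  rw [h1, mul_pow, mul_comm ((5 / 4 : ℝ) ^ (5 * p)) (c ^ (5 * p)), mul_assoc]
  apply mul_le_mul_of_nonneg_left _ (by positivity)
  refine le_trans ?_ hsum
  have h2 : γ * N ≤ ∑ x, f x ^ p +
      ((Finset.univ.filter (fun x => rep B x = 0)).card : ℝ) := by linarith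
  have h3 : (5 / 4 : ℝ) ^ (5 * p) * N ≤ 4 ^ p * (5 / 4 : ℝ) ^ (5 * p) * (γ * N) := by
    have h4 : 0 < (5 / 4 : ℝ) ^ (5 * p) * N := by positivity
    nlinarith
  exact h3.trans (mul_le_mul_of_nonneg_left h2 (by positivity))

end Pool.Agent.Helper22.KM
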