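import Pool.Agent.Helper22.KM.Defs

set_option autoImplicit false

/-! KM-4: exponential concentration for sampling with replacement.
Proof: with `w a = u a - μ`, `|w a| ≤ 1`, `∑_{a ∈ A} w a = 0` and `exp y ≤ 1 + y + y^2` for
`|y| ≤ 1` one gets `∑_{a ∈ A} exp(λ w a) ≤ |A| exp(λ^2)` for `|λ| ≤ 1`, hence
`∑_{a ∈ A^k} exp(λ ∑ w (a i)) ≤ |A|^k exp(k λ^2)`; take `λ = ± ε/2` and Markov. -/

open Finset Module

namespace Pool.Agent.Helper22.KM

private theorem sample_aux {G : Type} [DecidableEq G] (A : Finset G) (w : G → ℝ)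
    (hw : ∀ x ∈ A, |w x| ≤ 1) (hs : ∑ x ∈ A, w x = 0) (k : ℕ) (ε : ℝ) (hε : 0 < ε)
    (hε1 : ε ≤ 1) :
    (((Fintype.piFinset (fun _ : Fin k => A)).filter (fun a =>
      ε * k < ∑ i, w (a i))).card : ℝ) ≤ Real.exp (-(ε ^ 2 * k / 4)) * (A.card : ℝ) ^ k := by
  have h1 : ∑ a ∈ A, Real.exp (ε / 2 * w a) ≤ A.card * Real.exp (ε ^ 2 / 4) := by
    have h2 : ∀ a ∈ A, Real.exp (ε / 2 * w a) ≤ 1 + ε / 2 * w a + ε ^ 2 / 4 := by
      intro a ha
      have h3 := abs_le.1 (hw a ha)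
      have h4 : |ε / 2 * w a| ≤ 1 := by
        rw [abs_mul, abs_of_pos (by positivity : 0 < ε / 2)]
        nlinarith [hw a ha, abs_nonneg (w a)]
      have h5 := (abs_le.1 (Real.abs_exp_sub_one_sub_id_le h4)).2
      have h6 : (ε / 2 * w a) ^ 2 ≤ ε ^ 2 / 4 := by
        have h7 : (w a) ^ 2 ≤ 1 := by nlinarith
        nlinarith [sq_nonneg ε]
      linarith
    refine (Finset.sum_le_sum h2).trans ?_
    rw [Finset.sum_add_distrib, Finset.sum_add_distrib, ← Finset.mul_sum, hs]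
    simp only [Finset.sum_const, nsmul_eq_mul, mul_one, mul_zero, add_zero]
    have h3 := Real.add_one_le_exp (ε ^ 2 / 4)
    have h4 : (0 : ℝ) ≤ A.card := by positivity
    nlinarith
  have h2 : ∑ a ∈ Fintype.piFinset (fun _ : Fin k => A), Real.exp (ε / 2 * ∑ i, w (a i)) ≤
      (A.card : ℝ) ^ k * Real.exp (k * (ε ^ 2 / 4)) := by
    have h3 : ∑ a ∈ Fintype.piFinset (fun _ : Fin k => A), Real.exp (ε / 2 * ∑ i, w (a i)) =
        (∑ a ∈ A, Real.exp (ε / 2 * w a)) ^ k := by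
      have h4 := Finset.prod_univ_sum (fun _ : Fin k => A) (fun _ a => Real.exp (ε / 2 * w a))
      rw [Finset.prod_const, Finset.card_univ, Fintype.card_fin] at h4
      rw [h4]
      refine Finset.sum_congr rfl fun a _ => ?_
      rw [← Real.exp_sum, Finset.mul_sum]
    rw [h3]
    calc (∑ a ∈ A, Real.exp (ε / 2 * w a)) ^ k ≤ (A.card * Real.exp (ε ^ 2 / 4)) ^ k :=
          pow_le_pow_left₀ (Finset.sum_nonneg fun _ _ => (Real.exp_pos _).le) h1 k
      _ = (A.card : ℝ) ^ k * Real.exp (k * (ε ^ 2 / 4)) := by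
          rw [mul_pow, ← Real.exp_nat_mul]
  have h3 : (((Fintype.piFinset (fun _ : Fin k => A)).filter (fun a =>
      ε * k < ∑ i, w (a i))).card : ℝ) * Real.exp (ε / 2 * (ε * k)) ≤
      (A.card : ℝ) ^ k * Real.exp (k * (ε ^ 2 / 4)) := by
    refine le_trans ?_ h2
    rw [← nsmul_eq_mul, ← Finset.sum_const]
    refine le_trans (Finset.sum_le_sum (g := fun a => Real.exp (ε / 2 * ∑ i, w (a i))) ?_)
      (Finset.sum_le_sum_of_subset_of_nonneg (Finset.filter_subset _ _)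
        fun _ _ _ => (Real.exp_pos _).le)
    intro a ha
    have h4 := (Finset.mem_filter.1 ha).2
    apply Real.exp_le_exp.2
    exact mul_le_mul_of_nonneg_left h4.le (by positivity)
  have h4 : Real.exp (-(ε ^ 2 * k / 4)) * (A.card : ℝ) ^ k * Real.exp (ε / 2 * (ε * k)) =
      (A.card : ℝ) ^ k * Real.exp (k * (ε ^ 2 / 4)) := by
    rw [mul_comm (Real.exp _) ((A.card : ℝ) ^ k), mul_assoc, ← Real.exp_add]
    congr 2
    ring
  rw [← h4] at h3
  exact le_of_mul_le_mul_right h3 (Real.exp_pos _)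

theorem sample {G : Type} [DecidableEq G] (A : Finset G) (hA : A.Nonempty) (u : G → ℝ)
    (hu : ∀ x, 0 ≤ u x ∧ u x ≤ 1) (k : ℕ) (ε : ℝ) (hε : 0 < ε) (hε1 : ε ≤ 1) :
    (((Fintype.piFinset (fun _ : Fin k => A)).filter (fun a =>
      ε * k < |∑ i, u (a i) - k * ((∑ x ∈ A, u x) / A.card)|)).card : ℝ) ≤
      2 * Real.exp (-(ε ^ 2 * k / 4)) * (A.card : ℝ) ^ k := by
  obtain ⟨μ, hμ⟩ : ∃ μ, μ = (∑ x ∈ A, u x) / A.card := ⟨_, rfl⟩
  rw [← hμ]
  have hA0 : (0 : ℝ) < A.card := by exact_mod_cast hA.card_pos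
  have hsum : ∑ x ∈ A, u x = A.card * μ := by
    rw [hμ]
    field_simp
  have hμ0 : 0 ≤ μ := by
    rw [hμ]
    exact div_nonneg (Finset.sum_nonneg fun x _ => (hu x).1) hA0.le
  have hμ1 : μ ≤ 1 := by
    rw [hμ, div_le_one hA0]
    calc ∑ x ∈ A, u x ≤ ∑ x ∈ A, (1 : ℝ) := Finset.sum_le_sum fun x _ => (hu x).2
      _ = A.card := by simp
  have hw : ∀ x ∈ A, |u x - μ| ≤ 1 := by
    intro x _
    rw [abs_le]
    constructor
    · linarith [(hu x).1]
    · linarith [(hu x).2]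
  have hs : ∑ x ∈ A, (u x - μ) = 0 := by
    rw [Finset.sum_sub_distrib, hsum]
    simp
  have e1 := sample_aux A (fun x => u x - μ) hw hs k ε hε hε1
  have e2 := sample_aux A (fun x => -(u x - μ)) (fun x hx => by rw [abs_neg]; exact hw x hx)
    (by rw [Finset.sum_neg_distrib, hs, neg_zero]) k ε hε hε1
  have hsub : (Fintype.piFinset (fun _ : Fin k => A)).filter (fun a =>
      ε * k < |∑ i, u (a i) - k * μ|) ⊆
      (Fintype.piFinset (fun _ : Fin k => A)).filter (fun a => ε * k < ∑ i, (u (a i) - μ)) ∪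
      (Fintype.piFinset (fun _ : Fin k => A)).filter (fun a => ε * k < ∑ i, -(u (a i) - μ)) := by
    intro a ha
    rw [Finset.mem_filter] at ha
    have h5 : ∑ i, (u (a i) - μ) = ∑ i, u (a i) - k * μ := by
      rw [Finset.sum_sub_distrib]
      simp
    rw [Finset.mem_union, Finset.mem_filter, Finset.mem_filter, Finset.sum_neg_distrib, h5]
    rcases lt_abs.1 ha.2 with h | h
    · exact Or.inl ⟨ha.1, h⟩
    · exact Or.inr ⟨ha.1, h⟩
  have e3 := (Finset.card_le_card hsub).trans (Finset.card_union_le _ _)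
  have e4 : (((Fintype.piFinset (fun _ : Fin k => A)).filter (fun a =>
      ε * k < |∑ i, u (a i) - k * μ|)).card : ℝ) ≤
      (((Fintype.piFinset (fun _ : Fin k => A)).filter
        (fun a => ε * k < ∑ i, (u (a i) - μ))).card : ℝ) +
      (((Fintype.piFinset (fun _ : Fin k => A)).filter
        (fun a => ε * k < ∑ i, -(u (a i) - μ))).card : ℝ) := by
    exact_mod_cast e3
  linarith

end Pool.Agent.Helper22.KM
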