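import Pool.Agent.Helper22.KM.K4

set_option autoImplicit false

/-! KM-5: almost periods (Croot-Sisask).
Proof: for `a : Fin k → G` put `g_a(x) = (1/k) #{i | a i + x ∈ S}`.  By KM-4 (with
`u y = 1_S(y + x)`, whose mean over `A` is `gg A S x`) summed over `x`, at least half of the
`a ∈ A^k` are good: `|g_a(x) - gg A S x| ≤ ε` for all but `η N` of the `x` (Markov, as
`4 exp(-ε^2 k/4) ≤ η`).  Since `∑_{b : Fin k → G} #{t | b + t good} = N #good`, there is `b` with
`#{t | b + t good} ≥ #good / N^(k-1) ≥ (|A|/N)^k N / 2`; this is `T`.  For `t, t' ∈ T`,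
`g_b(y)` is within `ε` of `gg A S (y + t)` except for `η N` of the `y`, same for `t'`
(`g_{b+t}(x) = g_b(x+t)`, substitute `x = y + t`). -/

open Finset Module

namespace Pool.Agent.Helper22.KM

/-- The sum over a tuple of the indicator of `S` shifted by `x`. -/
private noncomputable def sm {G : Type} [AddCommGroup G] [DecidableEq G] (S : Finset G) {k : ℕ}
    (a : Fin k → G) (x : G) : ℝ := ∑ i, (if a i + x ∈ S then (1 : ℝ) else 0)

/-- The set of points where the sample is bad. -/
private noncomputable def badSet {G : Type} [AddCommGroup G] [Fintype G] [DecidableEq G]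
    (A S : Finset G) (ε : ℝ) {k : ℕ} (a : Fin k → G) : Finset G :=
  Finset.univ.filter (fun x => ε * k < |sm S a x - k * gg A S x|)

private theorem bad_count {G : Type} [AddCommGroup G] [Fintype G] [DecidableEq G]
    (A S : Finset G) (hA : A.Nonempty) (k : ℕ) (ε : ℝ) (hε : 0 < ε) (hε1 : ε ≤ 1) :
    (∑ a ∈ Fintype.piFinset (fun _ : Fin k => A), ((badSet A S ε a).card : ℝ)) ≤
      Fintype.card G * (2 * Real.exp (-(ε ^ 2 * k / 4)) * (A.card : ℝ) ^ k) := by
  classical
  have h1 : (∑ a ∈ Fintype.piFinset (fun _ : Fin k => A), ((badSet A S ε a).card : ℝ)) =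
      ∑ x : G, (((Fintype.piFinset (fun _ : Fin k => A)).filter (fun a =>
        ε * k < |sm S a x - k * gg A S x|)).card : ℝ) := by
    have e1 : ∀ a : Fin k → G, ((badSet A S ε a).card : ℝ) =
        ∑ x : G, (if ε * k < |sm S a x - k * gg A S x| then (1 : ℝ) else 0) := by
      intro a
      unfold badSet
      rw [Finset.card_filter]
      push_cast
      rfl
    have e2 : ∀ x : G, (((Fintype.piFinset (fun _ : Fin k => A)).filter (fun a =>
        ε * k < |sm S a x - k * gg A S x|)).card : ℝ) =
        ∑ a ∈ Fintype.piFinset (fun _ : Fin k => A),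
          (if ε * k < |sm S a x - k * gg A S x| then (1 : ℝ) else 0) := by
      intro x
      rw [Finset.card_filter]
      push_cast
      rfl
    rw [Finset.sum_congr rfl (fun a _ => e1 a), Finset.sum_congr rfl (fun x _ => e2 x),
      Finset.sum_comm]
  rw [h1]
  have h2 : ∀ x : G, (((Fintype.piFinset (fun _ : Fin k => A)).filter (fun a =>
        ε * k < |sm S a x - k * gg A S x|)).card : ℝ) ≤
        2 * Real.exp (-(ε ^ 2 * k / 4)) * (A.card : ℝ) ^ k := by
    intro x
    have h3 := sample A hA (fun y => if y + x ∈ S then (1 : ℝ) else 0)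
      (fun y => by split_ifs <;> norm_num) k ε hε hε1
    have h4 : (∑ y ∈ A, (if y + x ∈ S then (1 : ℝ) else 0)) / A.card = gg A S x := by
      unfold gg
      rw [Finset.card_filter]
      push_cast
      rfl
    simp only [h4] at h3
    exact h3
  calc (∑ x : G, (((Fintype.piFinset (fun _ : Fin k => A)).filter (fun a =>
        ε * k < |sm S a x - k * gg A S x|)).card : ℝ))
      ≤ ∑ _x : G, 2 * Real.exp (-(ε ^ 2 * k / 4)) * (A.card : ℝ) ^ k :=
        Finset.sum_le_sum (fun x _ => h2 x)
    _ = _ := by
        rw [Finset.sum_const, nsmul_eq_mul, Finset.card_univ]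

private theorem good_count {G : Type} [AddCommGroup G] [Fintype G] [DecidableEq G]
    (A S : Finset G) (hA : A.Nonempty) (k : ℕ) (ε η : ℝ) (hε : 0 < ε) (hε1 : ε ≤ 1)
    (hη : 4 * Real.exp (-(ε ^ 2 * k / 4)) ≤ η) :
    (A.card : ℝ) ^ k / 2 ≤
      (((Fintype.piFinset (fun _ : Fin k => A)).filter (fun a =>
        ((badSet A S ε a).card : ℝ) ≤ η * Fintype.card G)).card : ℝ) := by
  classical
  have hη0 : 0 < η := lt_of_lt_of_le (by positivity) hη
  have hN : (0 : ℝ) < Fintype.card G := by
    have : Nonempty G := ⟨0⟩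
    exact_mod_cast Fintype.card_pos
  have h1 := bad_count A S hA k ε hε hε1
  set P := Fintype.piFinset (fun _ : Fin k => A) with hP
  have hcardP : (P.card : ℝ) = (A.card : ℝ) ^ k := by
    rw [hP, Fintype.card_piFinset]
    simp
  have hsplit := Finset.card_filter_add_card_filter_not (s := P)
    (fun a => ((badSet A S ε a).card : ℝ) ≤ η * Fintype.card G)
  have hsplit' : ((P.filter (fun a => ((badSet A S ε a).card : ℝ) ≤ η * Fintype.card G)).card : ℝ)
      + ((P.filter (fun a => ¬ ((badSet A S ε a).card : ℝ) ≤ η * Fintype.card G)).card : ℝ)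
      = (A.card : ℝ) ^ k := by
    rw [← hcardP]
    exact_mod_cast hsplit
  have h2 : ((P.filter (fun a => ¬ ((badSet A S ε a).card : ℝ) ≤ η * Fintype.card G)).card : ℝ)
      * (η * Fintype.card G) ≤ ∑ a ∈ P, ((badSet A S ε a).card : ℝ) := by
    calc ((P.filter (fun a => ¬ ((badSet A S ε a).card : ℝ) ≤ η * Fintype.card G)).card : ℝ)
        * (η * Fintype.card G)
        = ∑ _a ∈ P.filter (fun a => ¬ ((badSet A S ε a).card : ℝ) ≤ η * Fintype.card G),
            (η * Fintype.card G) := by
          rw [Finset.sum_const, nsmul_eq_mul]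
      _ ≤ ∑ a ∈ P.filter (fun a => ¬ ((badSet A S ε a).card : ℝ) ≤ η * Fintype.card G),
            ((badSet A S ε a).card : ℝ) := by
          refine Finset.sum_le_sum (fun a ha => ?_)
          exact (not_le.1 (Finset.mem_filter.1 ha).2).le
      _ ≤ ∑ a ∈ P, ((badSet A S ε a).card : ℝ) :=
          Finset.sum_le_sum_of_subset_of_nonneg (Finset.filter_subset _ _)
            (fun a _ _ => by positivity)
  have h3 : ((P.filter (fun a => ¬ ((badSet A S ε a).card : ℝ) ≤ η * Fintype.card G)).card : ℝ)
      * (η * Fintype.card G) ≤ (A.card : ℝ) ^ k / 2 * (η * Fintype.card G) := by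
    refine le_trans h2 (le_trans h1 ?_)
    have h4 : 2 * Real.exp (-(ε ^ 2 * k / 4)) ≤ η / 2 := by linarith
    have h5 : (0 : ℝ) ≤ (A.card : ℝ) ^ k := by positivity
    calc (Fintype.card G : ℝ) * (2 * Real.exp (-(ε ^ 2 * k / 4)) * (A.card : ℝ) ^ k)
        ≤ Fintype.card G * (η / 2 * (A.card : ℝ) ^ k) := by gcongr
      _ = (A.card : ℝ) ^ k / 2 * (η * Fintype.card G) := by ring
  have h6 := le_of_mul_le_mul_right h3 (by positivity)
  linarith

/-- A translate by `t` of the tuple `b`. -/
private theorem exists_translate {G : Type} [AddCommGroup G] [Fintype G] [DecidableEq G]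
    (k : ℕ) (P : Finset (Fin k → G)) :
    ∃ b : Fin k → G, (Fintype.card G : ℝ) * P.card ≤ (Fintype.card G : ℝ) ^ k *
      ((Finset.univ.filter (fun t : G => (fun i => b i + t) ∈ P)).card : ℝ) := by
  classical
  by_contra hcon
  push Not at hcon
  have h1 : (∑ b : Fin k → G, (Fintype.card G : ℝ) ^ k *
      ((Finset.univ.filter (fun t : G => (fun i => b i + t) ∈ P)).card : ℝ)) <
      ∑ _b : Fin k → G, (Fintype.card G : ℝ) * P.card :=
    Finset.sum_lt_sum_of_nonempty ⟨fun _ => 0, Finset.mem_univ _⟩ (fun b _ => hcon b)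
  have h2 : (∑ b : Fin k → G,
      ((Finset.univ.filter (fun t : G => (fun i => b i + t) ∈ P)).card : ℝ)) =
      Fintype.card G * P.card := by
    have e1 : ∀ b : Fin k → G,
        ((Finset.univ.filter (fun t : G => (fun i => b i + t) ∈ P)).card : ℝ) =
        ∑ t : G, (if (fun i => b i + t) ∈ P then (1 : ℝ) else 0) := by
      intro b
      rw [Finset.card_filter]
      push_cast
      rfl
    have e2 : ∀ t : G, (∑ b : Fin k → G, (if (fun i => b i + t) ∈ P then (1 : ℝ) else 0)) =
        P.card := by
      intro t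
      rw [← Finset.sum_filter, Finset.sum_const, nsmul_eq_mul, mul_one]
      norm_cast
      refine Finset.card_bij (fun b _ => fun i => b i + t) ?_ ?_ ?_
      · intro b hb
        exact (Finset.mem_filter.1 hb).2
      · intro b _ b' _ hbb
        funext i
        have := congrFun hbb i
        simpa using this
      · intro c hc
        refine ⟨fun i => c i - t, ?_, ?_⟩
        · rw [Finset.mem_filter]
          refine ⟨Finset.mem_univ _, ?_⟩
          simpa using hc
        · funext i
          simp
    rw [Finset.sum_congr rfl (fun b _ => e1 b), Finset.sum_comm,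
      Finset.sum_congr rfl (fun t _ => e2 t), Finset.sum_const, nsmul_eq_mul, Finset.card_univ]
  rw [← Finset.mul_sum, h2, Finset.sum_const, nsmul_eq_mul, Finset.card_univ,
    Fintype.card_fun, Fintype.card_fin] at h1
  push_cast at h1
  exact lt_irrefl _ h1

theorem periods {G : Type} [AddCommGroup G] [Module (ZMod 2) G] [Fintype G] [DecidableEq G]
    (A S : Finset G) (hA : A.Nonempty) (k : ℕ) (hk : 1 ≤ k) (ε η : ℝ) (hε : 0 < ε) (hε1 : ε ≤ 1)
    (hη : 4 * Real.exp (-(ε ^ 2 * k / 4)) ≤ η) :
    ∃ T : Finset G, T.Nonempty ∧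
      ((A.card : ℝ) / Fintype.card G) ^ k / 2 * Fintype.card G ≤ T.card ∧
      ∀ t ∈ T, ∀ t' ∈ T,
        ((Finset.univ.filter (fun y => 2 * ε < |gg A S (y + t) - gg A S (y + t')|)).card : ℝ) ≤
          2 * η * Fintype.card G := by
  classical
  have hN : (0 : ℝ) < Fintype.card G := by
    have : Nonempty G := ⟨0⟩
    exact_mod_cast Fintype.card_pos
  have hA0 : (0 : ℝ) < A.card := by exact_mod_cast hA.card_pos
  have hk0 : (0 : ℝ) < k := by exact_mod_cast hk
  have hgood := good_count A S hA k ε η hε hε1 hη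
  set P := (Fintype.piFinset (fun _ : Fin k => A)).filter (fun a =>
        ((badSet A S ε a).card : ℝ) ≤ η * Fintype.card G) with hP
  obtain ⟨b, hb⟩ := exists_translate k P
  set T : Finset G := Finset.univ.filter (fun t : G => (fun i => b i + t) ∈ P) with hT
  have hTcard : ((A.card : ℝ) / Fintype.card G) ^ k / 2 * Fintype.card G ≤ T.card := by
    have h1 : (Fintype.card G : ℝ) * ((A.card : ℝ) ^ k / 2) ≤
        (Fintype.card G : ℝ) ^ k * (T.card : ℝ) :=
      le_trans (mul_le_mul_of_nonneg_left hgood hN.le) hb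
    rw [div_pow]
    have h2 : (0 : ℝ) < (Fintype.card G : ℝ) ^ k := by positivity
    have h3 : (A.card : ℝ) ^ k / (Fintype.card G : ℝ) ^ k / 2 * Fintype.card G =
        (Fintype.card G : ℝ) * ((A.card : ℝ) ^ k / 2) / (Fintype.card G : ℝ) ^ k := by
      field_simp
    rw [h3, div_le_iff₀ h2]
    linarith
  have hTne : T.Nonempty := by
    rw [← Finset.card_pos]
    have h1 : (0 : ℝ) < ((A.card : ℝ) / Fintype.card G) ^ k / 2 * Fintype.card G := by positivity
    have h2 : (0 : ℝ) < (T.card : ℝ) := lt_of_lt_of_le h1 hTcard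
    exact_mod_cast h2
  refine ⟨T, hTne, hTcard, ?_⟩
  have hone : ∀ t ∈ T, ((Finset.univ.filter (fun y => ε * k < |sm S b y - k * gg A S (y + t)|)).card : ℝ)
      ≤ η * Fintype.card G := by
    intro t ht
    have h1 : (fun i => b i + t) ∈ P := (Finset.mem_filter.1 ht).2
    have h2 : ((badSet A S ε (fun i => b i + t)).card : ℝ) ≤ η * Fintype.card G :=
      (Finset.mem_filter.1 h1).2
    refine le_trans ?_ h2
    norm_cast
    refine Finset.card_le_card_of_injOn (fun y => y + t) ?_ ?_
    · intro y hy
      have h3 := (Finset.mem_filter.1 (Finset.mem_coe.1 hy)).2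
      unfold badSet
      rw [Finset.mem_coe, Finset.mem_filter]
      refine ⟨Finset.mem_univ _, ?_⟩
      have h4 : sm S (fun i => b i + t) (y + t) = sm S b y := by
        unfold sm
        refine Finset.sum_congr rfl (fun i _ => ?_)
        have h5 : b i + t + (y + t) = b i + y := by
          have h6 := add_self G t
          calc b i + t + (y + t) = b i + y + (t + t) := by abel
            _ = b i + y := by rw [h6, add_zero]
        rw [h5]
      rw [h4]
      exact h3
    · intro y _ y' _ hyy
      simpa using hyy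
  intro t ht t' ht'
  have h1 := hone t ht
  have h2 := hone t' ht'
  have h3 : (Finset.univ.filter (fun y => 2 * ε < |gg A S (y + t) - gg A S (y + t')|)) ⊆
      (Finset.univ.filter (fun y => ε * k < |sm S b y - k * gg A S (y + t)|)) ∪
      (Finset.univ.filter (fun y => ε * k < |sm S b y - k * gg A S (y + t')|)) := by
    intro y hy
    have h4 := (Finset.mem_filter.1 hy).2
    by_contra hcon
    rw [Finset.mem_union, Finset.mem_filter, Finset.mem_filter] at hcon
    push Not at hcon
    have h5 := hcon.1 (Finset.mem_univ _)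
    have h6 := hcon.2 (Finset.mem_univ _)
    have h7 : k * |gg A S (y + t) - gg A S (y + t')| ≤ ε * k + ε * k := by
      have h8 : k * |gg A S (y + t) - gg A S (y + t')| =
          |(sm S b y - k * gg A S (y + t')) - (sm S b y - k * gg A S (y + t))| := by
        rw [← abs_of_pos hk0, ← abs_mul, abs_of_pos hk0]
        congr 1
        ring
      rw [h8]
      exact le_trans (abs_sub _ _) (by linarith)
    have h9 : k * (2 * ε) < k * |gg A S (y + t) - gg A S (y + t')| :=
      mul_lt_mul_of_pos_left h4 hk0
    linarith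
  have h4 := Finset.card_le_card h3
  have h5 := Finset.card_union_le
    (Finset.univ.filter (fun y => ε * k < |sm S b y - k * gg A S (y + t)|))
    (Finset.univ.filter (fun y => ε * k < |sm S b y - k * gg A S (y + t')|))
  have h6 : ((Finset.univ.filter (fun y => 2 * ε < |gg A S (y + t) - gg A S (y + t')|)).card : ℝ) ≤
      ((Finset.univ.filter (fun y => ε * k < |sm S b y - k * gg A S (y + t)|)).card : ℝ) +
      ((Finset.univ.filter (fun y => ε * k < |sm S b y - k * gg A S (y + t')|)).card : ℝ) := by
    exact_mod_cast le_trans h4 h5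
  linarith

end Pool.Agent.Helper22.KM
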